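import Mathlib
import Pool.Agent.Work.MP_2d1b31_co.Defs

set_option autoImplicit false

/-
MODULE Degree (size S). The degree bound of a C4-free graph: (deg(x) - 1) y <= E. See (0) of the header
of Count: the sets N(v) \ {x}, v in N(x), are pairwise disjoint and avoid x, each has at least y
elements; deg(x) * y <= N - 1 = E + y. With deg(x) >= y + 1: (y + 1) y <= E + y, y^2 <= E.
-/

namespace Pool.Agent.SC4.TN

open Classical in
theorem degree_bound {V : Type} [Fintype V] [Nonempty V] (G : SimpleGraph V) (hG : C4Free G) (y : ℕ)
    (hdeg : ∀ v, y + 1 ≤ G.degree v) (E : ℕ) (hE : Fintype.card V = E + (y + 1)) :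
    y ^ 2 ≤ E ∧ ∀ x, (G.degree x - 1) * y ≤ E := by
  have key : ∀ x, G.degree x * y ≤ E + y := by
    intro x
    have hdis : Set.PairwiseDisjoint (G.neighborFinset x : Set V)
        (fun v => (G.neighborFinset v).erase x) := by
      intro v hv v' hv' hne
      rw [Finset.mem_coe, SimpleGraph.mem_neighborFinset] at hv hv'
      rw [Function.onFun, Finset.disjoint_left]
      intro u hu hu'
      rw [Finset.mem_erase, SimpleGraph.mem_neighborFinset] at hu hu'
      exact hu.1 (hG v v' x u hne hv.symm hv'.symm hu.2 hu'.2).symm
    have h1 : (G.neighborFinset x).card * y ≤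
        ((G.neighborFinset x).biUnion (fun v => (G.neighborFinset v).erase x)).card := by
      rw [Finset.card_biUnion hdis, ← smul_eq_mul]
      apply Finset.card_nsmul_le_sum
      intro v hv
      rw [SimpleGraph.mem_neighborFinset] at hv
      rw [Finset.card_erase_of_mem (by rw [SimpleGraph.mem_neighborFinset]; exact hv.symm)]
      have := hdeg v
      rw [← SimpleGraph.card_neighborFinset_eq_degree] at this
      omega
    have h2 : ((G.neighborFinset x).biUnion (fun v => (G.neighborFinset v).erase x)).card
        ≤ (Finset.univ.erase x : Finset V).card := by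
      apply Finset.card_le_card
      intro u hu
      rw [Finset.mem_biUnion] at hu
      obtain ⟨v, _, hv⟩ := hu
      rw [Finset.mem_erase] at hv ⊢
      exact ⟨hv.1, Finset.mem_univ _⟩
    rw [Finset.card_erase_of_mem (Finset.mem_univ x), Finset.card_univ, hE] at h2
    rw [SimpleGraph.card_neighborFinset_eq_degree] at h1
    omega
  have fin : ∀ x, (G.degree x - 1) * y ≤ E := by
    intro x
    have h1 := key x
    have h2 := hdeg x
    obtain ⟨c, hc⟩ : ∃ c, G.degree x = c + 1 := ⟨G.degree x - 1, by omega⟩
    rw [hc] at h1 ⊢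
    have h3 : (c + 1) * y = c * y + y := by ring
    simp only [Nat.add_sub_cancel]
    omega
  refine ⟨?_, fin⟩
  obtain ⟨x⟩ := (inferInstance : Nonempty V)
  have h2 := hdeg x
  calc y ^ 2 = y * y := pow_two y
    _ ≤ (G.degree x - 1) * y := Nat.mul_le_mul_right _ (by omega)
    _ ≤ E := fin x

end Pool.Agent.SC4.TN
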