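import Mathlib

set_option autoImplicit false

/-
MODULE Density (size M). Sieve count. Mathlib: the sum of the reciprocals of the primes diverges
(`not_summable_one_div_on_primes` or `Nat.Primes.not_summable_one_div`).
(1) The product over primes p <= z of (1 - (p-1)/p^2) tends to 0 as z -> infinity, because
(p-1)/p^2 >= 1/(2p) and 1 - x <= exp(-x).
(2) Given delta > 0 choose z with product <= delta, r = z + 2, Q = product of p^2, p <= z prime. If h >= 0 satisfies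
the condition (for every prime p dividing h, r <= p^(h.factorization p) + 1) then for every prime
p <= z: p divides h implies p^2 divides h (otherwise factorization = 1 and r <= p + 1 <= z + 1 is
false; for h = 0 it is clear). So h mod p^2 avoids the p - 1 classes p u, 0 < u < p, and by the Chinese
remainder theorem h mod Q lies in a set of product_{p<=z} (p^2 - p + 1) <= delta Q classes. Therefore the
number of such h in an interval [0, Y) is at most delta Q (Y/Q + 1) <= 2 delta Y for Y >= Q.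
   (The CRT count may be replaced by induction over the primes, or by `Nat.count`/ZMod product.)
(3) If n <= X and |h - sqrt n| <= R then h <= sqrt X + R, and n lies in the interval
[(h-R)^2, (h+R)^2] (or [0, (h+R)^2] if h < R), of length at most 4 R h + R^2 + .. <= 4 R (sqrt X + R) + R^2;
so it contains at most 4R(sqrt X + R) + R^2 + 2 <= 8 R sqrt X + ... integers n.
Total <= 2 delta (sqrt X + R + 1) * (4 R (sqrt X + R) + R^2 + 2) <= eps X for X large if 16 R delta <= eps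
(R may be enlarged to R >= 1 first).
-/

namespace Pool.Agent.SC4.TN

private theorem card_good (p : ℕ) (hp : p.Prime) :
    ((Finset.range (p ^ 2)).filter (fun t => p ∣ t → p ^ 2 ∣ t)).card ≤ p ^ 2 - (p - 1) := by
  classical
  have h1 := Finset.card_filter_add_card_filter_not (s := Finset.range (p ^ 2))
    (fun t => p ∣ t → p ^ 2 ∣ t)
  rw [Finset.card_range] at h1
  have h2 : p - 1 ≤ ((Finset.range (p ^ 2)).filter (fun t => ¬ (p ∣ t → p ^ 2 ∣ t))).card := by
    have h3 : ((Finset.Ico 1 p).image fun u => p * u) ⊆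
        (Finset.range (p ^ 2)).filter (fun t => ¬ (p ∣ t → p ^ 2 ∣ t)) := by
      intro t ht
      obtain ⟨u, hu, rfl⟩ := Finset.mem_image.1 ht
      rw [Finset.mem_Ico] at hu
      rw [Finset.mem_filter, Finset.mem_range]
      refine ⟨?_, ?_⟩
      · rw [pow_two]
        exact Nat.mul_lt_mul_of_pos_left hu.2 hp.pos
      · intro h4
        have h5 := h4 (dvd_mul_right p u)
        rw [pow_two] at h5
        have h6 : p ∣ u := Nat.dvd_of_mul_dvd_mul_left hp.pos h5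
        exact absurd (Nat.le_of_dvd (by omega) h6) (by omega)
    have h4 := Finset.card_le_card h3
    rw [Finset.card_image_of_injective _ (fun x y h => Nat.eq_of_mul_eq_mul_left hp.pos h),
      Nat.card_Ico] at h4
    exact h4
  omega

private theorem card_all (S : Finset ℕ) (hS : ∀ p ∈ S, p.Prime) :
    ((Finset.range (∏ p ∈ S, p ^ 2)).filter (fun t => ∀ p ∈ S, p ∣ t → p ^ 2 ∣ t)).card ≤
      ∏ p ∈ S, (p ^ 2 - (p - 1)) := by
  classical
  induction S using Finset.induction_on with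
  | empty =>
    refine (Finset.card_filter_le _ _).trans ?_
    simp
  | insert a S ha ih =>
    have ih' := ih fun p hp => hS p (Finset.mem_insert_of_mem hp)
    have hap : a.Prime := hS a (Finset.mem_insert_self a S)
    have hQ0 : 0 < ∏ p ∈ S, p ^ 2 :=
      Finset.prod_pos fun p hp => pow_pos (hS p (Finset.mem_insert_of_mem hp)).pos 2
    have hcop : Nat.Coprime (a ^ 2) (∏ p ∈ S, p ^ 2) := by
      refine Nat.Coprime.prod_right fun p hp => ?_
      refine Nat.Coprime.pow 2 2 ?_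
      rw [Nat.coprime_primes hap (hS p (Finset.mem_insert_of_mem hp))]
      rintro rfl
      exact ha hp
    rw [Finset.prod_insert ha, Finset.prod_insert ha]
    have hdvd : ∀ p ∈ S, p ^ 2 ∣ ∏ p ∈ S, p ^ 2 := fun p hp => Finset.dvd_prod_of_mem _ hp
    have key : ((Finset.range (a ^ 2 * ∏ p ∈ S, p ^ 2)).filter
        (fun t => ∀ p ∈ insert a S, p ∣ t → p ^ 2 ∣ t)).card ≤
        (((Finset.range (a ^ 2)).filter (fun t => a ∣ t → a ^ 2 ∣ t)) ×ˢ
          ((Finset.range (∏ p ∈ S, p ^ 2)).filter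
            (fun t => ∀ p ∈ S, p ∣ t → p ^ 2 ∣ t))).card := by
      refine Finset.card_le_card_of_injOn (fun t => (t % a ^ 2, t % ∏ p ∈ S, p ^ 2)) ?_ ?_
      · intro t ht
        rw [Finset.mem_coe, Finset.mem_filter, Finset.mem_range] at ht
        rw [Finset.mem_coe, Finset.mem_product, Finset.mem_filter, Finset.mem_filter,
          Finset.mem_range, Finset.mem_range]
        refine ⟨⟨Nat.mod_lt _ (pow_pos hap.pos 2), ?_⟩, ⟨Nat.mod_lt _ hQ0, ?_⟩⟩
        · intro h1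
          rw [Nat.dvd_mod_iff (dvd_refl _)]
          rw [Nat.dvd_mod_iff (dvd_pow_self a two_ne_zero)] at h1
          exact ht.2 a (Finset.mem_insert_self a S) h1
        · intro p hp h1
          rw [Nat.dvd_mod_iff (hdvd p hp)]
          rw [Nat.dvd_mod_iff ((dvd_pow_self p two_ne_zero).trans (hdvd p hp))] at h1
          exact ht.2 p (Finset.mem_insert_of_mem hp) h1
      · intro t ht t' ht' h
        rw [Finset.mem_coe, Finset.mem_filter, Finset.mem_range] at ht ht'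
        have h1 := congrArg Prod.fst h
        have h2 := congrArg Prod.snd h
        have h3 : t ≡ t' [MOD a ^ 2 * ∏ p ∈ S, p ^ 2] :=
          (Nat.modEq_and_modEq_iff_modEq_mul hcop).1 ⟨h1, h2⟩
        exact Nat.ModEq.eq_of_lt_of_lt h3 ht.1 ht'.1
    refine key.trans ?_
    rw [Finset.card_product]
    exact Nat.mul_le_mul (card_good a hap) ih'

private theorem card_interval (S : Finset ℕ) (hS : ∀ p ∈ S, p.Prime) (Y : ℕ) :
    ((Finset.range Y).filter (fun t => ∀ p ∈ S, p ∣ t → p ^ 2 ∣ t)).card ≤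
      (Y / (∏ p ∈ S, p ^ 2) + 1) * ∏ p ∈ S, (p ^ 2 - (p - 1)) := by
  classical
  have hQ0 : 0 < ∏ p ∈ S, p ^ 2 := Finset.prod_pos fun p hp => pow_pos (hS p hp).pos 2
  have hdvd : ∀ p ∈ S, p ^ 2 ∣ ∏ p ∈ S, p ^ 2 := fun p hp => Finset.dvd_prod_of_mem _ hp
  have key : ((Finset.range Y).filter (fun t => ∀ p ∈ S, p ∣ t → p ^ 2 ∣ t)).card ≤
      ((Finset.range (Y / (∏ p ∈ S, p ^ 2) + 1)) ×ˢ
        ((Finset.range (∏ p ∈ S, p ^ 2)).filter
          (fun t => ∀ p ∈ S, p ∣ t → p ^ 2 ∣ t))).card := by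
    refine Finset.card_le_card_of_injOn
      (fun t => (t / ∏ p ∈ S, p ^ 2, t % ∏ p ∈ S, p ^ 2)) ?_ ?_
    · intro t ht
      rw [Finset.mem_coe, Finset.mem_filter, Finset.mem_range] at ht
      rw [Finset.mem_coe, Finset.mem_product, Finset.mem_filter, Finset.mem_range,
        Finset.mem_range]
      refine ⟨Nat.lt_succ_of_le (Nat.div_le_div_right ht.1.le), Nat.mod_lt _ hQ0, ?_⟩
      intro p hp h1
      rw [Nat.dvd_mod_iff (hdvd p hp)]
      rw [Nat.dvd_mod_iff ((dvd_pow_self p two_ne_zero).trans (hdvd p hp))] at h1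
      exact ht.2 p hp h1
    · intro t _ t' _ h
      have h1 : t / (∏ p ∈ S, p ^ 2) = t' / (∏ p ∈ S, p ^ 2) := congrArg Prod.fst h
      have h2 : t % (∏ p ∈ S, p ^ 2) = t' % (∏ p ∈ S, p ^ 2) := congrArg Prod.snd h
      rw [← Nat.div_add_mod t (∏ p ∈ S, p ^ 2), h1, h2, Nat.div_add_mod]
  refine key.trans ?_
  rw [Finset.card_product, Finset.card_range]
  exact Nat.mul_le_mul_left _ (card_all S hS)

/-- a finite set of primes with a small product -/
private theorem exists_primes (δ : ℝ) (hδ : 0 < δ) : ∃ S : Finset ℕ, (∀ p ∈ S, p.Prime) ∧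
    ((∏ p ∈ S, (p ^ 2 - (p - 1)) : ℕ) : ℝ) ≤ δ * ((∏ p ∈ S, p ^ 2 : ℕ) : ℝ) := by
  obtain ⟨u, hu⟩ : ∃ u : Finset Nat.Primes, 2 * (-Real.log δ) < ∑ p ∈ u, 1 / ((p : ℕ) : ℝ) := by
    by_contra hcon
    push Not at hcon
    exact Nat.Primes.not_summable_one_div
      (summable_of_sum_le (fun p => by positivity) hcon)
  refine ⟨u.map (⟨fun p => (p : ℕ), fun _ _ h => Subtype.ext h⟩ : Nat.Primes ↪ ℕ), ?_, ?_⟩
  · intro p hp
    obtain ⟨q, -, rfl⟩ := Finset.mem_map.1 hp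
    exact q.2
  · rw [Finset.prod_map, Finset.prod_map]
    show ((∏ p ∈ u, ((p : ℕ) ^ 2 - ((p : ℕ) - 1)) : ℕ) : ℝ) ≤
      δ * ((∏ p ∈ u, (p : ℕ) ^ 2 : ℕ) : ℝ)
    rw [Nat.cast_prod, Nat.cast_prod]
    have h1 : ∀ p ∈ u, (((p : ℕ) ^ 2 - ((p : ℕ) - 1) : ℕ) : ℝ) ≤
        Real.exp (-(1 / 2 * (1 / ((p : ℕ) : ℝ)))) * (((p : ℕ) ^ 2 : ℕ) : ℝ) := by
      intro p _
      have hp2 : 2 ≤ (p : ℕ) := p.2.two_le
      have hpr : (2 : ℝ) ≤ ((p : ℕ) : ℝ) := by exact_mod_cast hp2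
      have h2 : (p : ℕ) - 1 ≤ (p : ℕ) ^ 2 := by
        have : (p : ℕ) ≤ (p : ℕ) ^ 2 := Nat.le_self_pow two_ne_zero _
        omega
      rw [Nat.cast_sub h2, Nat.cast_sub (by omega)]
      push_cast
      have h3 := Real.add_one_le_exp (-(1 / 2 * (1 / ((p : ℕ) : ℝ))))
      have h4 : ((p : ℕ) : ℝ) ^ 2 - (((p : ℕ) : ℝ) - 1) ≤
          (-(1 / 2 * (1 / ((p : ℕ) : ℝ))) + 1) * ((p : ℕ) : ℝ) ^ 2 := by
        have h5 : (-(1 / 2 * (1 / ((p : ℕ) : ℝ))) + 1) * ((p : ℕ) : ℝ) ^ 2 =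
            ((p : ℕ) : ℝ) ^ 2 - ((p : ℕ) : ℝ) / 2 := by
          field_simp
          ring
        rw [h5]
        linarith
      exact h4.trans (mul_le_mul_of_nonneg_right h3 (by positivity))
    calc ∏ p ∈ u, (((p : ℕ) ^ 2 - ((p : ℕ) - 1) : ℕ) : ℝ)
        ≤ ∏ p ∈ u, (Real.exp (-(1 / 2 * (1 / ((p : ℕ) : ℝ)))) * (((p : ℕ) ^ 2 : ℕ) : ℝ)) :=
          Finset.prod_le_prod (fun p _ => Nat.cast_nonneg _) h1
      _ = Real.exp (∑ p ∈ u, -(1 / 2 * (1 / ((p : ℕ) : ℝ)))) *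
          ∏ p ∈ u, (((p : ℕ) ^ 2 : ℕ) : ℝ) := by
          rw [Finset.prod_mul_distrib, Real.exp_sum]
      _ ≤ δ * ∏ p ∈ u, (((p : ℕ) ^ 2 : ℕ) : ℝ) := by
          refine mul_le_mul_of_nonneg_right ?_ (Finset.prod_nonneg fun p _ => Nat.cast_nonneg _)
          rw [Finset.sum_neg_distrib, ← Finset.mul_sum]
          rw [← Real.le_log_iff_exp_le hδ]
          linarith

/-- the number of the `n` with square root close to `h` -/
private theorem card_near (R X h : ℕ) :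
    ((Finset.range (X + 1)).filter (fun n : ℕ => |(h : ℝ) - Real.sqrt n| ≤ R)).card ≤
      4 * R * (h + R) + 1 := by
  have h1 : (Finset.range (X + 1)).filter (fun n : ℕ => |(h : ℝ) - Real.sqrt n| ≤ R) ⊆
      Finset.Icc ((h - R) ^ 2) ((h + R) ^ 2) := by
    intro n hn
    rw [Finset.mem_filter] at hn
    obtain ⟨-, h2⟩ := hn
    rw [abs_le] at h2
    rw [Finset.mem_Icc]
    have hs := Real.sq_sqrt (Nat.cast_nonneg (α := ℝ) n)
    have hs0 := Real.sqrt_nonneg (n : ℝ)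
    constructor
    · rcases le_or_gt R h with h3 | h3
      · have h4 : ((h - R : ℕ) : ℝ) = (h : ℝ) - R := Nat.cast_sub h3
        have h5 : 0 ≤ (h : ℝ) - R := by rw [← h4]; exact Nat.cast_nonneg _
        have h6 : (((h - R) ^ 2 : ℕ) : ℝ) ≤ (n : ℝ) := by
          push_cast
          rw [h4, ← hs]
          exact pow_le_pow_left₀ h5 (by linarith [h2.2]) 2
        exact_mod_cast h6
      · rw [Nat.sub_eq_zero_of_le h3.le]
        exact Nat.zero_le _
    · have h6 : (n : ℝ) ≤ (((h + R) ^ 2 : ℕ) : ℝ) := by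
        push_cast
        rw [← hs]
        exact pow_le_pow_left₀ hs0 (by linarith [h2.1]) 2
      exact_mod_cast h6
  refine (Finset.card_le_card h1).trans ?_
  rw [Nat.card_Icc]
  rcases le_or_gt R h with h3 | h3
  · obtain ⟨k, rfl⟩ := Nat.exists_eq_add_of_le h3
    rw [Nat.add_sub_cancel_left, Nat.sub_le_iff_le_add]
    nlinarith
  · rw [Nat.sub_eq_zero_of_le h3.le]
    rw [Nat.sub_le_iff_le_add]
    nlinarith [Nat.mul_le_mul h3.le h3.le, Nat.mul_le_mul_left h h3.le]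

open Classical in
theorem density (R ε : ℝ) (hε : 0 < ε) : ∃ (r X0 : ℕ), ∀ X : ℕ, X0 ≤ X →
    (((Finset.range (X + 1)).filter (fun n : ℕ => ∃ h : ℕ, |(h : ℝ) - Real.sqrt n| ≤ R ∧
      ∀ p : ℕ, p.Prime → p ∣ h → r ≤ p ^ (h.factorization p) + 1)).card : ℝ) ≤ ε * X := by
  obtain ⟨R₀, hR₀⟩ := exists_nat_ge R
  obtain ⟨R₁, hR₁, hR₁'⟩ : ∃ R₁ : ℕ, 1 ≤ R₁ ∧ R ≤ (R₁ : ℝ) :=
    ⟨R₀ + 1, by omega, hR₀.trans (by exact_mod_cast Nat.le_succ _)⟩
  have hR1r : (1 : ℝ) ≤ (R₁ : ℝ) := by exact_mod_cast hR₁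
  have hδ : 0 < ε / (5 * R₁) := by positivity
  obtain ⟨S, hSp, hSd⟩ := exists_primes (ε / (5 * R₁)) hδ
  set δ := ε / (5 * R₁) with hδd
  set Q := ∏ p ∈ S, p ^ 2 with hQ
  have hQ0 : 0 < Q := Finset.prod_pos fun p hp => pow_pos (hSp p hp).pos 2
  let a : ℕ := R₁ + 1 + Q
  let b : ℕ := 4 * R₁ * (2 * R₁ + 1) + 1
  let s₀ : ℕ := 4 * R₁ * a + b + a * b + 1
  refine ⟨S.sup id + 3, s₀ ^ 2, ?_⟩
  intro X hX
  set s := Nat.sqrt X with hs
  have hs0 : s₀ ≤ s := by
    rw [hs, Nat.le_sqrt']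
    exact hX
  have hsX : s ^ 2 ≤ X := by
    rw [hs, pow_two]
    exact Nat.sqrt_le X
  let A : Finset ℕ := (Finset.range (s + R₁ + 1)).filter (fun t => ∀ p ∈ S, p ∣ t → p ^ 2 ∣ t)
  let B : ℕ → Finset ℕ := fun h =>
    (Finset.range (X + 1)).filter (fun n : ℕ => |(h : ℝ) - Real.sqrt n| ≤ R₁)
  have hsub : (Finset.range (X + 1)).filter (fun n : ℕ => ∃ h : ℕ, |(h : ℝ) - Real.sqrt n| ≤ R ∧
      ∀ p : ℕ, p.Prime → p ∣ h → S.sup id + 3 ≤ p ^ (h.factorization p) + 1) ⊆ A.biUnion B := by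
    intro n hn
    rw [Finset.mem_filter, Finset.mem_range] at hn
    obtain ⟨hnX, h, hh1, hh2⟩ := hn
    rw [Finset.mem_biUnion]
    refine ⟨h, ?_, ?_⟩
    · rw [Finset.mem_filter, Finset.mem_range]
      constructor
      · have h1 : (h : ℝ) ≤ Real.sqrt n + R₁ := by
          have := (abs_le.1 (hh1.trans hR₁')).2
          linarith
        have h2 : Real.sqrt n ≤ Real.sqrt X :=
          Real.sqrt_le_sqrt (by exact_mod_cast Nat.lt_succ_iff.1 hnX)
        have h3 : Real.sqrt X < (s : ℝ) + 1 := by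
          rw [Real.sqrt_lt' (by positivity)]
          have h4 := Nat.lt_succ_sqrt X
          have h5 : X < (s + 1) ^ 2 := by rw [pow_two]; exact h4
          exact_mod_cast h5
        have h6 : (h : ℝ) < ((s + R₁ + 1 : ℕ) : ℝ) := by
          push_cast
          linarith
        exact_mod_cast h6
      · intro p hp hph
        have hpp := hSp p hp
        rcases Nat.eq_zero_or_pos h with rfl | hpos
        · exact dvd_zero _
        · have h1 := hh2 p hpp hph
          have h2 : p ≤ S.sup id := Finset.le_sup (f := id) hp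
          have h3 : 1 ≤ h.factorization p :=
            (Nat.Prime.dvd_iff_one_le_factorization hpp hpos.ne').1 hph
          have h4 : 2 ≤ h.factorization p := by
            by_contra h5
            have h6 : h.factorization p = 1 := by omega
            rw [h6, pow_one] at h1
            omega
          exact (pow_dvd_pow p h4).trans (Nat.ordProj_dvd h p)
    · rw [Finset.mem_filter, Finset.mem_range]
      exact ⟨hnX, hh1.trans hR₁'⟩
  have hcard : ((Finset.range (X + 1)).filter (fun n : ℕ => ∃ h : ℕ,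
      |(h : ℝ) - Real.sqrt n| ≤ R ∧
      ∀ p : ℕ, p.Prime → p ∣ h → S.sup id + 3 ≤ p ^ (h.factorization p) + 1)).card ≤
      A.card * (4 * R₁ * (s + R₁ + R₁) + 1) := by
    refine (Finset.card_le_card hsub).trans ?_
    refine Finset.card_biUnion_le_card_mul _ _ _ fun h hh => ?_
    refine (card_near R₁ X h).trans ?_
    have h1 : h < s + R₁ + 1 := Finset.mem_range.1 (Finset.mem_filter.1 hh).1
    have h2 : h + R₁ ≤ s + R₁ + R₁ := by omega
    exact Nat.add_le_add_right (Nat.mul_le_mul_left _ h2) 1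
  have hA : (A.card : ℝ) ≤ δ * ((s + R₁ + 1 + Q : ℕ) : ℝ) := by
    have h1 := card_interval S hSp (s + R₁ + 1)
    have h2 : (A.card : ℝ) ≤ (((s + R₁ + 1) / Q + 1 : ℕ) : ℝ) *
        ((∏ p ∈ S, (p ^ 2 - (p - 1)) : ℕ) : ℝ) := by exact_mod_cast h1
    refine h2.trans ?_
    refine (mul_le_mul_of_nonneg_left hSd (Nat.cast_nonneg _)).trans ?_
    have h3 : ((s + R₁ + 1) / Q + 1) * Q ≤ s + R₁ + 1 + Q := by
      rw [add_mul, one_mul]
      exact Nat.add_le_add_right (Nat.div_mul_le_self _ _) _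
    calc (((s + R₁ + 1) / Q + 1 : ℕ) : ℝ) * (δ * (Q : ℝ))
        = δ * ((((s + R₁ + 1) / Q + 1) * Q : ℕ) : ℝ) := by push_cast; ring
      _ ≤ δ * ((s + R₁ + 1 + Q : ℕ) : ℝ) :=
          mul_le_mul_of_nonneg_left (by exact_mod_cast h3) hδ.le
  have hnum : (s + R₁ + 1 + Q) * (4 * R₁ * (s + R₁ + R₁) + 1) ≤ 5 * R₁ * s ^ 2 := by
    have e1 : s + R₁ + 1 + Q = s + a := by
      show s + R₁ + 1 + Q = s + (R₁ + 1 + Q)
      ring
    have e2 : 4 * R₁ * (s + R₁ + R₁) + 1 ≤ 4 * R₁ * s + b := by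
      show 4 * R₁ * (s + R₁ + R₁) + 1 ≤ 4 * R₁ * s + (4 * R₁ * (2 * R₁ + 1) + 1)
      nlinarith
    rw [e1]
    refine (Nat.mul_le_mul_left _ e2).trans ?_
    have h1 : 1 ≤ s := le_trans (by show 1 ≤ 4 * R₁ * a + b + a * b + 1; omega) hs0
    have h2 : 4 * R₁ * a + b + a * b ≤ s := by
      have : 4 * R₁ * a + b + a * b + 1 ≤ s := hs0
      omega
    calc (s + a) * (4 * R₁ * s + b) = 4 * R₁ * s ^ 2 + (4 * R₁ * a + b) * s + a * b := by ring
      _ ≤ 4 * R₁ * s ^ 2 + (4 * R₁ * a + b) * s + a * b * s := by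
          have : a * b * 1 ≤ a * b * s := Nat.mul_le_mul_left _ h1
          omega
      _ = 4 * R₁ * s ^ 2 + (4 * R₁ * a + b + a * b) * s := by ring
      _ ≤ 4 * R₁ * s ^ 2 + s * s := by gcongr
      _ ≤ 4 * R₁ * s ^ 2 + R₁ * s ^ 2 := by
          have : 1 * (s * s) ≤ R₁ * (s * s) := Nat.mul_le_mul_right _ hR₁
          nlinarith
      _ = 5 * R₁ * s ^ 2 := by ring
  calc (((Finset.range (X + 1)).filter (fun n : ℕ => ∃ h : ℕ, |(h : ℝ) - Real.sqrt n| ≤ R ∧
      ∀ p : ℕ, p.Prime → p ∣ h → S.sup id + 3 ≤ p ^ (h.factorization p) + 1)).card : ℝ)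
      ≤ ((A.card * (4 * R₁ * (s + R₁ + R₁) + 1) : ℕ) : ℝ) := by exact_mod_cast hcard
    _ = (A.card : ℝ) * ((4 * R₁ * (s + R₁ + R₁) + 1 : ℕ) : ℝ) := by push_cast; ring
    _ ≤ δ * ((s + R₁ + 1 + Q : ℕ) : ℝ) * ((4 * R₁ * (s + R₁ + R₁) + 1 : ℕ) : ℝ) :=
        mul_le_mul_of_nonneg_right hA (Nat.cast_nonneg _)
    _ = δ * (((s + R₁ + 1 + Q) * (4 * R₁ * (s + R₁ + R₁) + 1) : ℕ) : ℝ) := by push_cast; ring
    _ ≤ δ * ((5 * R₁ * s ^ 2 : ℕ) : ℝ) :=
        mul_le_mul_of_nonneg_left (by exact_mod_cast hnum) hδ.le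
    _ ≤ δ * ((5 * R₁ * X : ℕ) : ℝ) :=
        mul_le_mul_of_nonneg_left (by exact_mod_cast Nat.mul_le_mul_left _ hsX) hδ.le
    _ = ε * X := by
        rw [hδd]
        push_cast
        field_simp

end Pool.Agent.SC4.TN
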