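import Mathlib
import Pool.Agent.Work.MP_2d1b31_co.Defs

set_option autoImplicit false

/-!
Translational classes at a vertex of a C4-free graph. FIXED definitions.

For a vertex `w` and a neighbour `x` of `w` the vertices `v ≠ w` adjacent to `x` are the *lines of
the class `x`*; a vertex `u ≠ x` adjacent to `v` is a *point* on the line `v`.
-/

namespace Pool.Agent.SC4.TN

/-- `u` lies on some line of the class `x` (seen from `w`). -/
def Joined {V : Type*} (G : SimpleGraph V) (w x u : V) : Prop :=
  ∃ v, G.Adj x v ∧ v ≠ w ∧ G.Adj v u ∧ u ≠ x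

/-- The parallel classes `x ∈ I` at the vertex `w` are translational: there are an abelian group
`M`, subgroups `H x` (`x ∈ I`) with `H x ⊓ H y = ⊥` for `x ≠ y`, and a map `p` into `M`, injective
on the points of these classes, such that any two points on a common line of the class `x` differ by
an element of `H x`. -/
def Translational {V : Type*} (G : SimpleGraph V) (w : V) (I : Finset V) : Prop :=
  (∀ x ∈ I, G.Adj w x) ∧
  ∃ (M : Type) (_ : AddCommGroup M) (H : V → AddSubgroup M) (p : V → M),
    (∀ x ∈ I, ∀ y ∈ I, x ≠ y → H x ⊓ H y = ⊥) ∧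
    (∀ x ∈ I, ∀ y ∈ I, ∀ u u', Joined G w x u → Joined G w y u' → p u = p u' → u = u') ∧
    (∀ x ∈ I, ∀ v u u', G.Adj x v → v ≠ w → G.Adj v u → G.Adj v u' → u ≠ x → u' ≠ x →
      p u - p u' ∈ H x)

end Pool.Agent.SC4.TN
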