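import Mathlib

set_option autoImplicit false

/-
MODULE MacNeish (size S-M). Partial congruence partitions of an abelian group.
W a finite subgroup of order h^2, K x (x in I) subgroups of W of order h, pairwise with trivial
intersection; p a prime dividing h, p^a exactly dividing h, h = p^a m with p not dividing m.
For each x the subgroup m K x = { m g : g in K x } has order p^a at least (the kernel of g -> m g on
K x consists of elements g with m g = 0; the order of the kernel divides ... simplest: in the abelian
group K x of order p^a m with gcd(p^a, m) = 1 the elements killed by p^a form a subgroup of order p^a,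
e.g. the Sylow p-subgroup; Mathlib: `Sylow`, `IsPGroup`, or `AddSubgroup.exists...`; it suffices that
K x contains at least p^a elements g with p^a g = 0, for example a subgroup of order p^a exists by
Sylow's theorem `Sylow.exists_subgroup_card_pow_prime` and all its elements are killed by p^a).
The elements g of W killed by p^(2a) number at most p^(2a): they form a subgroup of W whose order is a
power of p (every element has p-power order) dividing h^2 = p^(2a) m^2, hence dividing p^(2a).
The sets (Sylow subgroup of K x) minus {0}, x in I, are disjoint subsets of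
{ g in W : p^(2a) g = 0 } minus {0}. So |I| (p^a - 1) <= p^(2a) - 1 = (p^a - 1)(p^a + 1), and
p^a >= 2.
-/

namespace Pool.Agent.SC4.TN

theorem macneish {M : Type*} [AddCommGroup M] {ι : Type*} (I : Finset ι) (W : AddSubgroup M)
    [Finite W] (H : ι → AddSubgroup M) (h : ℕ) (hW : Nat.card W = h ^ 2)
    (hH : ∀ x ∈ I, Nat.card (W ⊓ H x : AddSubgroup M) = h)
    (hd : ∀ x ∈ I, ∀ y ∈ I, x ≠ y → H x ⊓ H y = ⊥) (p : ℕ) (hp : p.Prime) (hph : p ∣ h) :
    I.card ≤ p ^ (h.factorization p) + 1 := by
  classical
  haveI : Fact p.Prime := ⟨hp⟩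
  have hh : h ≠ 0 := by
    rintro rfl
    have := Nat.card_pos (α := W)
    rw [hW] at this
    simp at this
  set a := h.factorization p with ha
  have ha1 : 1 ≤ a := hp.factorization_pos_of_dvd hh hph
  have hpa : 2 ≤ p ^ a := by
    calc 2 ≤ p := hp.two_le
      _ = p ^ 1 := (pow_one p).symm
      _ ≤ p ^ a := Nat.pow_le_pow_right hp.pos ha1
  let B : AddSubgroup M := W ⊓ (nsmulAddMonoidHom (α := M) (p ^ (2 * a))).ker
  have memB : ∀ g : M, g ∈ B ↔ g ∈ W ∧ (p ^ (2 * a)) • g = 0 := by
    intro g
    show g ∈ W ⊓ _ ↔ _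
    rw [AddSubgroup.mem_inf, AddMonoidHom.mem_ker]
    rfl
  have hBW : B ≤ W := inf_le_left
  have finB : (B : Set M).Finite := (Set.toFinite (W : Set M)).subset hBW
  haveI : Finite B := finB.to_subtype
  have cardB : Nat.card B ≤ p ^ (2 * a) := by
    have hpg : IsPGroup p (Multiplicative B) := by
      intro g
      refine ⟨2 * a, ?_⟩
      have h1 : (p ^ (2 * a)) • ((Multiplicative.toAdd g : B) : M) = 0 :=
        ((memB _).mp (Multiplicative.toAdd g : B).2).2
      have h2 : (p ^ (2 * a)) • (Multiplicative.toAdd g : B) = 0 := by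
        apply Subtype.ext
        rw [AddSubgroup.coe_nsmul]
        exact h1
      have h3 : Multiplicative.toAdd (g ^ (p ^ (2 * a))) = 0 := by
        rw [toAdd_pow]
        exact h2
      exact h3
    obtain ⟨n, hn⟩ := IsPGroup.iff_card.mp hpg
    have hn' : Nat.card B = p ^ n := by
      rw [← hn]
      exact Nat.card_congr Multiplicative.ofAdd
    have hdv : p ^ n ∣ h ^ 2 := by
      rw [← hn', ← hW]
      exact AddSubgroup.card_dvd_of_le hBW
    have h2 : n ≤ (h ^ 2).factorization p :=
      (hp.pow_dvd_iff_le_factorization (pow_ne_zero 2 hh)).mp hdv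
    rw [Nat.factorization_pow] at h2
    have h3 : n ≤ 2 * a := by simpa using h2
    rw [hn']
    exact Nat.pow_le_pow_right hp.pos h3
  let Bf : Finset M := finB.toFinset
  have memBf : ∀ g, g ∈ Bf ↔ g ∈ B := by
    intro g
    show g ∈ finB.toFinset ↔ _
    rw [Set.Finite.mem_toFinset]
    rfl
  have cardBf : Bf.card ≤ p ^ (2 * a) := by
    refine le_trans (le_of_eq ?_) cardB
    show finB.toFinset.card = _
    rw [← Set.ncard_eq_toFinset_card _ finB]
    rfl
  have cardA : ∀ x ∈ I, p ^ a ≤ (Bf.filter (fun g => g ∈ H x)).card := by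
    intro x hx
    haveI : Finite (W ⊓ H x : AddSubgroup M) :=
      ((Set.toFinite (W : Set M)).subset (inf_le_left : W ⊓ H x ≤ W)).to_subtype
    have hdv : p ^ a ∣ Nat.card (Multiplicative (W ⊓ H x : AddSubgroup M)) := by
      have : Nat.card (Multiplicative (W ⊓ H x : AddSubgroup M)) = h := by
        rw [← hH x hx]
        exact Nat.card_congr Multiplicative.toAdd
      rw [this]
      exact Nat.ordProj_dvd h p
    obtain ⟨Q, hQ⟩ := Sylow.exists_subgroup_card_pow_prime p hdv
    have key : ∀ q : Q, (((Multiplicative.toAdd (q : Multiplicative (W ⊓ H x : AddSubgroup M))) :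
        (W ⊓ H x : AddSubgroup M)) : M) ∈ Bf.filter (fun g => g ∈ H x) := by
      intro q
      rw [Finset.mem_filter, memBf, memB]
      have hq := (Multiplicative.toAdd (q : Multiplicative (W ⊓ H x : AddSubgroup M))).2
      rw [AddSubgroup.mem_inf] at hq
      refine ⟨⟨hq.1, ?_⟩, hq.2⟩
      have h1 : q ^ (p ^ a) = 1 := by
        rw [← hQ]
        exact pow_card_eq_one'
      have h2 : (q : Multiplicative (W ⊓ H x : AddSubgroup M)) ^ (p ^ a) = 1 := by
        have := congrArg (fun r : Q => (r : Multiplicative (W ⊓ H x : AddSubgroup M))) h1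
        simpa using this
      have h3 : (p ^ a) • Multiplicative.toAdd (q : Multiplicative (W ⊓ H x : AddSubgroup M))
          = 0 := by
        rw [← toAdd_pow, h2]
        rfl
      have h4 : (p ^ a) • ((Multiplicative.toAdd (q : Multiplicative (W ⊓ H x : AddSubgroup M)) :
          (W ⊓ H x : AddSubgroup M)) : M) = 0 := by
        have := congrArg (fun r : (W ⊓ H x : AddSubgroup M) => (r : M)) h3
        simpa using this
      have h5 : p ^ (2 * a) = p ^ a * p ^ a := by rw [two_mul, pow_add]
      rw [h5, mul_smul, h4, smul_zero]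
    calc p ^ a = Nat.card Q := hQ.symm
      _ ≤ Nat.card (Bf.filter (fun g => g ∈ H x) : Finset M) := by
          apply Nat.card_le_card_of_injective (fun q : Q => ⟨_, key q⟩)
          intro q r hqr
          have h1 := congrArg Subtype.val hqr
          exact Subtype.ext (Multiplicative.toAdd.injective (Subtype.ext h1))
      _ = _ := by rw [Nat.card_eq_fintype_card, Fintype.card_coe]
  have zeroB : (0 : M) ∈ Bf := (memBf 0).mpr B.zero_mem
  have hsum : ∑ x ∈ I, ((Bf.filter (fun g => g ∈ H x)).erase 0).card ≤ (Bf.erase 0).card := by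
    rw [← Finset.card_biUnion]
    · apply Finset.card_le_card
      intro g hg
      rw [Finset.mem_biUnion] at hg
      obtain ⟨x, _, hgx⟩ := hg
      rw [Finset.mem_erase, Finset.mem_filter] at hgx
      rw [Finset.mem_erase]
      exact ⟨hgx.1, hgx.2.1⟩
    · intro x hx y hy hxy
      rw [Function.onFun, Finset.disjoint_left]
      intro g hg hg'
      rw [Finset.mem_erase, Finset.mem_filter] at hg hg'
      have : g ∈ H x ⊓ H y := ⟨hg.2.2, hg'.2.2⟩
      rw [hd x hx y hy hxy] at this
      exact hg.1 (by simpa using this)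
  have hlow : I.card * (p ^ a - 1) ≤ ∑ x ∈ I, ((Bf.filter (fun g => g ∈ H x)).erase 0).card := by
    rw [← smul_eq_mul]
    apply Finset.card_nsmul_le_sum
    intro x hx
    have h0 : (0 : M) ∈ Bf.filter (fun g => g ∈ H x) :=
      Finset.mem_filter.mpr ⟨zeroB, (H x).zero_mem⟩
    rw [Finset.card_erase_of_mem h0]
    exact Nat.sub_le_sub_right (cardA x hx) 1
  have hup : (Bf.erase 0).card ≤ (p ^ a - 1) * (p ^ a + 1) := by
    rw [Finset.card_erase_of_mem zeroB]
    have h5 : p ^ (2 * a) = p ^ a * p ^ a := by rw [two_mul, pow_add]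
    rw [h5] at cardBf
    obtain ⟨c, hc⟩ : ∃ c, p ^ a = c + 1 := ⟨p ^ a - 1, by omega⟩
    rw [hc] at cardBf ⊢
    have : (c + 1) * (c + 1) = (c + 1 - 1) * (c + 1 + 1) + 1 := by
      simp only [Nat.add_sub_cancel]; ring
    omega
  have hfin : (p ^ a - 1) * I.card ≤ (p ^ a - 1) * (p ^ a + 1) := by
    rw [mul_comm]
    exact (hlow.trans hsum).trans hup
  exact Nat.le_of_mul_le_mul_left hfin (by omega)

end Pool.Agent.SC4.TN
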