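import Mathlib

set_option autoImplicit false

/-
MODULE Gap (size M). Finite set in an abelian group with many almost periods.
Write def(g) = #{u in U : u + g not in U}.  Facts: def(0) = 0; def(-g) = def(g) (the bijection
u -> u + g of {u in U, u + g in U} onto {v in U, v - g in U}); def(g + h) <= def(g) + def(h) (if
u in U and u + g + h notin U then u + g notin U, or u + g in U and (u+g)+h notin U; in the second
case v = u + g is counted by def(h)); and double counting: sum over any finite set F of g of
(|U| - def(g)) <= |U|^2 (pairs (u, u+g) in U x U).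
Let W = { g : 5 def(g) <= |U| }.
(1) W is finite: for any finite F in W, |F| * (4/5)|U| <= |U|^2, so |F| <= (5/4)|U|.
(2) GAP: for g in W the sets R and g + R are both contained in { g' : def(g') <= |U|/5 + t },
t <= |U|/20, so def(g') <= |U|/4 and a finite set F of such g' has |F| (3/4)|U| <= |U|^2, i.e.
3|F| <= 4|U|. Since |R|, |g+R| >= (3/4)|U| and 3/2 > 4/3 (U nonempty), R and g + R meet: g = r - r',
so def(g) <= 2t. Hence W = { g : def(g) <= 2t }.
(3) W is a subgroup: def(g+h) <= 4t <= |U|/5. R is contained in W since 5t <= |U|.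
(4) |W| (|U| - 2t) <= |U|^2 and 20t <= |U| give |W| <= |U| + 3t
    ( |U|^2 <= (|U|+3t)(|U|-2t) = |U|^2 + t|U| - 6t^2 since 6t <= |U| ).
(5) COSET: let a_C = |U cap C| for the cosets C of W (finitely many nonzero).
    sum_{g in W} (|U| - def(g)) = sum_C a_C^2 (pairs (u,u') in U^2 with u' - u in W), so
    sum_C a_C^2 >= |W| (|U| - 2t). Let m = max a_C = a_{C0}; sum a_C^2 <= m |U|, hence
    m >= |W|(|U|-2t)/|U| >= (3/4)(|U| - 2t) >= (3/4)(9/10)|U| = 0.675 |U|  (|W| >= |R| >= (3/4)|U|).
    Put r = |U| - m <= 0.325 |U|. sum_C a_C^2 <= m^2 + r^2, m <= |W| (a coset has |W| elements),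
    r <= 0.325|U| <= (0.325/0.75)|W| <= 0.44 |W|. So |W|(|U| - 2t) <= m^2 + r^2 <= |W| (m + 0.44 r),
    |U| - 2t <= |U| - 0.56 r, r <= 2t/0.56 <= 4t. This is the claim with C0 = m0 + W. In particular
    |U| - 4t <= m <= |W|.
-/

namespace Pool.Agent.SC4.TN

section aux

open Classical

variable {M : Type*} [AddCommGroup M]

private noncomputable def df (U : Finset M) (g : M) : ℕ := (U.filter (fun u => u + g ∉ U)).card

private noncomputable def ov (U : Finset M) (g : M) : ℕ := (U.filter (fun u => u + g ∈ U)).card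

private theorem ov_add_df (U : Finset M) (g : M) : ov U g + df U g = U.card := by
  unfold ov df
  exact Finset.card_filter_add_card_filter_not (s := U) (fun u => u + g ∈ U)

private theorem df_zero (U : Finset M) : df U 0 = 0 := by
  unfold df
  rw [Finset.card_eq_zero, Finset.filter_eq_empty_iff]
  intro u hu
  simpa using hu

private theorem ov_neg (U : Finset M) (g : M) : ov U (-g) = ov U g := by
  unfold ov
  refine Finset.card_bij' (fun u _ => u + -g) (fun u _ => u + g) ?_ ?_ ?_ ?_
  · intro u hu
    rw [Finset.mem_filter] at hu ⊢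
    refine ⟨hu.2, ?_⟩
    rw [neg_add_cancel_right]
    exact hu.1
  · intro u hu
    rw [Finset.mem_filter] at hu ⊢
    refine ⟨hu.2, ?_⟩
    rw [add_neg_cancel_right]
    exact hu.1
  · intro u _
    exact neg_add_cancel_right u g
  · intro u _
    exact add_neg_cancel_right u g

private theorem df_neg (U : Finset M) (g : M) : df U (-g) = df U g := by
  have h1 := ov_add_df U g
  have h2 := ov_add_df U (-g)
  have h3 := ov_neg U g
  omega

private theorem df_add (U : Finset M) (g h : M) : df U (g + h) ≤ df U g + df U h := by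
  have h1 : U.filter (fun u => u + (g + h) ∉ U) ⊆
      U.filter (fun u => u + g ∉ U) ∪ U.filter (fun u => u + g ∈ U ∧ u + g + h ∉ U) := by
    intro u hu
    rw [Finset.mem_filter] at hu
    rw [Finset.mem_union, Finset.mem_filter, Finset.mem_filter]
    by_cases h2 : u + g ∈ U
    · right
      refine ⟨hu.1, h2, ?_⟩
      rw [add_assoc]
      exact hu.2
    · left
      exact ⟨hu.1, h2⟩
  have h2 : (U.filter (fun u => u + g ∈ U ∧ u + g + h ∉ U)).card ≤ df U h := by
    unfold df
    refine Finset.card_le_card_of_injOn (fun u => u + g) ?_ ?_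
    · intro u hu
      rw [Finset.mem_coe, Finset.mem_filter] at hu
      rw [Finset.mem_coe, Finset.mem_filter]
      exact ⟨hu.2.1, hu.2.2⟩
    · intro u _ v _ huv
      exact add_right_cancel huv
  calc df U (g + h) ≤ (U.filter (fun u => u + g ∉ U) ∪ U.filter (fun u => u + g ∈ U ∧ u + g + h ∉ U)).card :=
        Finset.card_le_card h1
    _ ≤ (U.filter (fun u => u + g ∉ U)).card + (U.filter (fun u => u + g ∈ U ∧ u + g + h ∉ U)).card :=
        Finset.card_union_le _ _
    _ ≤ df U g + df U h := Nat.add_le_add_left h2 _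

private theorem sum_ov (U F : Finset M) : ∑ g ∈ F, ov U g ≤ U.card * U.card := by
  have h1 : ∑ g ∈ F, ov U g = (F.sigma (fun g => U.filter (fun u => u + g ∈ U))).card := by
    rw [Finset.card_sigma]
    rfl
  rw [h1, ← Finset.card_product]
  refine Finset.card_le_card_of_injOn (fun p => (p.2, p.2 + p.1)) ?_ ?_
  · rintro ⟨g, u⟩ hp
    rw [Finset.mem_coe, Finset.mem_sigma, Finset.mem_filter] at hp
    rw [Finset.mem_coe, Finset.mem_product]
    exact ⟨hp.2.1, hp.2.2⟩
  · rintro ⟨g, u⟩ _ ⟨g', u'⟩ _ h2
    obtain ⟨h3, h4⟩ := Prod.mk.inj h2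
    have h5 : u = u' := h3
    subst h5
    have h6 : g = g' := add_left_cancel h4
    subst h6
    rfl

/-- a finite set of `g` with overlap at least `p / q` of `U` -/
private theorem card_bound (U F : Finset M) (hU : U.Nonempty) (p q : ℕ)
    (h : ∀ g ∈ F, p * U.card ≤ q * ov U g) : p * F.card ≤ q * U.card := by
  have h1 : F.card * (p * U.card) ≤ q * (U.card * U.card) := by
    calc F.card * (p * U.card) = ∑ g ∈ F, p * U.card := by rw [Finset.sum_const, smul_eq_mul]
      _ ≤ ∑ g ∈ F, q * ov U g := Finset.sum_le_sum h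
      _ = q * ∑ g ∈ F, ov U g := by rw [Finset.mul_sum]
      _ ≤ q * (U.card * U.card) := Nat.mul_le_mul_left _ (sum_ov U F)
  have h2 : 0 < U.card := hU.card_pos
  refine Nat.le_of_mul_le_mul_right ?_ h2
  calc p * F.card * U.card = F.card * (p * U.card) := by ring
    _ ≤ q * (U.card * U.card) := h1
    _ = q * U.card * U.card := by ring

private theorem arith (n w m r t : ℕ) (hn : 0 < n) (hR : 3 * n ≤ 4 * w) (ht : 20 * t ≤ n)
    (hmr : m + r = n) (hmW : m ≤ w) (h3 : w * (n - 2 * t) ≤ n * n) (e1 : w * (n - 2 * t) ≤ n * m)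
    (e2 : w * (n - 2 * t) ≤ m * m + r * r) : r ≤ 4 * t ∧ w ≤ n + 3 * t ∧ n ≤ w + 4 * t := by
  have hwpos : 0 < w := by omega
  obtain ⟨d, hd⟩ : ∃ d : ℕ, n = d + 2 * t := ⟨n - 2 * t, by omega⟩
  have hnd : n - 2 * t = d := by omega
  rw [hnd] at e1 e2 h3
  have hdpos : 0 < d := by omega
  have f1 : 3 * d ≤ 4 * m := by
    have g1 : 3 * n * d ≤ 4 * (n * m) := by
      calc 3 * n * d ≤ 4 * w * d := Nat.mul_le_mul_right _ (by omega)
        _ = 4 * (w * d) := by ring
        _ ≤ 4 * (n * m) := Nat.mul_le_mul_left _ e1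
    refine Nat.le_of_mul_le_mul_left ?_ hn
    calc n * (3 * d) = 3 * n * d := by ring
      _ ≤ 4 * (n * m) := g1
      _ = n * (4 * m) := by ring
  have f2 : 30 * r ≤ 13 * w := by omega
  have f3 : 17 * r ≤ 60 * t := by
    have g1 : 30 * (w * d) ≤ w * (30 * m + 13 * r) := by
      calc 30 * (w * d) ≤ 30 * (m * m + r * r) := Nat.mul_le_mul_left _ e2
        _ = 30 * (m * m) + (30 * r) * r := by ring
        _ ≤ 30 * (w * m) + (13 * w) * r :=
          Nat.add_le_add (Nat.mul_le_mul_left _ (Nat.mul_le_mul_right _ hmW)) (Nat.mul_le_mul_right _ f2)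
        _ = w * (30 * m + 13 * r) := by ring
    have g2 : 30 * d ≤ 30 * m + 13 * r := by
      refine Nat.le_of_mul_le_mul_left ?_ hwpos
      calc w * (30 * d) = 30 * (w * d) := by ring
        _ ≤ w * (30 * m + 13 * r) := g1
    omega
  have hWn : w ≤ n + 3 * t := by
    by_contra hcon
    rw [not_le] at hcon
    have g1 : (n + 3 * t + 1) * d ≤ n * n := le_trans (Nat.mul_le_mul_right _ hcon) h3
    have g2 : n * n + d ≤ (n + 3 * t + 1) * d := by
      have g3 : 18 * t ≤ d := by omega
      rw [hd]
      nlinarith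
    omega
  exact ⟨by omega, hWn, by omega⟩

private theorem main_aux (U R : Finset M) (t : ℕ)
    (hU : U.Nonempty) (hR : 3 * U.card ≤ 4 * R.card) (ht : 20 * t ≤ U.card)
    (hov : ∀ g ∈ R, df U g ≤ t) :
    ∃ (W : AddSubgroup M) (m0 : M), Finite W ∧
      (∀ g, g ∈ W ↔ 5 * df U g ≤ U.card) ∧
      (∀ g ∈ R, g ∈ W) ∧
      (U.filter (fun u => u - m0 ∉ W)).card ≤ 4 * t ∧
      Nat.card W ≤ U.card + 3 * t ∧ U.card ≤ Nat.card W + 4 * t := by
  have hn : 0 < U.card := hU.card_pos
  -- (2) the gap
  have hgap : ∀ g, 5 * df U g ≤ U.card → df U g ≤ 2 * t := by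
    intro g hg
    have hmeet : ¬ Disjoint R (R.image (fun r => g + r)) := by
      intro hdis
      have h1 : 3 * (R ∪ R.image (fun r => g + r)).card ≤ 4 * U.card := by
        refine card_bound U _ hU 3 4 ?_
        intro x hx
        have h2 := ov_add_df U x
        have h3 : 4 * df U x ≤ U.card := by
          rcases Finset.mem_union.1 hx with hx | hx
          · have := hov x hx
            omega
          · obtain ⟨r, hr, rfl⟩ := Finset.mem_image.1 hx
            have h4 := hov r hr
            have h5 := df_add U g r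
            omega
        omega
      rw [Finset.card_union_of_disjoint hdis,
        Finset.card_image_of_injective _ (fun a b hab => add_left_cancel hab)] at h1
      omega
    rw [Finset.not_disjoint_iff] at hmeet
    obtain ⟨r, hr, hr'⟩ := hmeet
    obtain ⟨r', hr'', h1⟩ := Finset.mem_image.1 hr'
    have h2 : g = r + -r' := by
      rw [← h1]
      simp
    have h3 := df_add U r (-r')
    rw [← h2, df_neg] at h3
    have h4 := hov r hr
    have h5 := hov r' hr''
    omega
  let W : AddSubgroup M :=
    { carrier := {g | 5 * df U g ≤ U.card}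
      zero_mem' := by
        show 5 * df U 0 ≤ U.card
        rw [df_zero]
        omega
      add_mem' := by
        intro a b ha hb
        have h1 := hgap a ha
        have h2 := hgap b hb
        have h3 := df_add U a b
        show 5 * df U (a + b) ≤ U.card
        omega
      neg_mem' := by
        intro a ha
        show 5 * df U (-a) ≤ U.card
        rw [df_neg]
        exact ha }
  have hW : ∀ g, g ∈ W ↔ 5 * df U g ≤ U.card := fun g => Iff.rfl
  have hfin : (W : Set M).Finite := by
    by_contra hinf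
    obtain ⟨F, hF, hFc⟩ := Set.Infinite.exists_subset_card_eq hinf (2 * U.card + 1)
    have h1 : 4 * F.card ≤ 5 * U.card := by
      refine card_bound U F hU 4 5 ?_
      intro g hg
      have h2 := ov_add_df U g
      have h3 : 5 * df U g ≤ U.card := hF hg
      omega
    omega
  haveI : Finite W := hfin
  let Wf : Finset M := hfin.toFinset
  have hWf : ∀ g, g ∈ Wf ↔ g ∈ W := fun g => hfin.mem_toFinset
  have hcard : Nat.card W = Wf.card := by
    calc Nat.card W = (W : Set M).ncard := Nat.card_coe_set_eq (W : Set M)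
      _ = Wf.card := Set.ncard_eq_toFinset_card _ hfin
  have hRW : ∀ g ∈ R, g ∈ W := by
    intro g hg
    rw [hW]
    have := hov g hg
    omega
  have hRc : R.card ≤ Wf.card := Finset.card_le_card (fun g hg => (hWf g).2 (hRW g hg))
  have hsum : Wf.card * (U.card - 2 * t) ≤ ∑ g ∈ Wf, ov U g := by
    rw [← smul_eq_mul, ← Finset.sum_const]
    refine Finset.sum_le_sum ?_
    intro g hg
    have h1 := hgap g ((hW g).1 ((hWf g).1 hg))
    have h2 := ov_add_df U g
    omega
  -- the classes
  let c : M → ℕ := fun u => (U.filter (fun v => v - u ∈ W)).card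
  have hc : ∑ g ∈ Wf, ov U g = ∑ u ∈ U, c u := by
    unfold ov
    simp only [c, Finset.card_filter]
    rw [Finset.sum_comm]
    refine Finset.sum_congr rfl ?_
    intro u _
    rw [← Finset.card_filter, ← Finset.card_filter]
    refine Finset.card_bij' (fun g _ => u + g) (fun v _ => v - u) ?_ ?_ ?_ ?_
    · intro g hg
      rw [Finset.mem_filter] at hg ⊢
      refine ⟨hg.2, ?_⟩
      rw [add_sub_cancel_left]
      exact (hWf g).1 hg.1
    · intro v hv
      rw [Finset.mem_filter] at hv ⊢
      refine ⟨(hWf _).2 hv.2, ?_⟩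
      rw [add_sub_cancel]
      exact hv.1
    · intro g _
      exact add_sub_cancel_left u g
    · intro v _
      exact add_sub_cancel u v
  obtain ⟨m0, hm0, hmax⟩ := Finset.exists_max_image U c hU
  set m : ℕ := c m0 with hm
  set r : ℕ := (U.filter (fun u => u - m0 ∉ W)).card with hr
  have hmr : m + r = U.card :=
    Finset.card_filter_add_card_filter_not (s := U) (fun u => u - m0 ∈ W)
  have hmW : m ≤ Wf.card := by
    refine Finset.card_le_card_of_injOn (fun u => u - m0) ?_ ?_
    · intro u hu
      rw [Finset.mem_coe, Finset.mem_filter] at hu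
      rw [Finset.mem_coe]
      exact (hWf _).2 hu.2
    · intro u _ v _ huv
      exact sub_left_injective huv
  have h1 : ∑ u ∈ U, c u ≤ U.card * m := by
    rw [← smul_eq_mul, ← Finset.sum_const]
    exact Finset.sum_le_sum (fun u hu => hmax u hu)
  have h2 : ∑ u ∈ U, c u ≤ m * m + r * r := by
    rw [← Finset.sum_filter_add_sum_filter_not U (fun u => u - m0 ∈ W)]
    have h3 : ∑ u ∈ U.filter (fun u => u - m0 ∈ W), c u ≤ m * m := by
      have h4 : ∑ u ∈ U.filter (fun u => u - m0 ∈ W), c u ≤ ∑ u ∈ U.filter (fun u => u - m0 ∈ W), m :=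
        Finset.sum_le_sum (fun u hu => hmax u (Finset.mem_filter.1 hu).1)
      rw [Finset.sum_const, smul_eq_mul] at h4
      exact h4
    have h5 : ∑ u ∈ U.filter (fun u => ¬ (u - m0 ∈ W)), c u ≤ r * r := by
      have h6 : ∀ u ∈ U.filter (fun u => ¬ (u - m0 ∈ W)), c u ≤ r := by
        intro u hu
        refine Finset.card_le_card ?_
        intro v hv
        rw [Finset.mem_filter] at hu hv ⊢
        refine ⟨hv.1, ?_⟩
        intro h7
        apply hu.2
        have h8 : u - m0 = (v - m0) - (v - u) := by abel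
        rw [h8]
        exact W.sub_mem h7 hv.2
      have h4 := Finset.sum_le_sum h6
      rw [Finset.sum_const, smul_eq_mul] at h4
      exact h4
    exact Nat.add_le_add h3 h5
  have h3 : Wf.card * (U.card - 2 * t) ≤ U.card * U.card := le_trans hsum (sum_ov U Wf)
  rw [hc] at hsum
  obtain ⟨g1, g2, g3⟩ := arith U.card Wf.card m r t hn (by omega) ht hmr hmW h3 (le_trans hsum h1)
    (le_trans hsum h2)
  exact ⟨W, m0, inferInstance, hW, hRW, g1, by rw [hcard]; exact g2, by rw [hcard]; exact g3⟩

end aux

open Classical in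
theorem gap {M : Type*} [AddCommGroup M] (U R : Finset M) (t : ℕ)
    (hU : U.Nonempty) (hR : 3 * U.card ≤ 4 * R.card) (ht : 20 * t ≤ U.card)
    (hov : ∀ g ∈ R, (U.filter (fun u => u + g ∉ U)).card ≤ t) :
    ∃ (W : AddSubgroup M) (m0 : M), Finite W ∧
      (∀ g, g ∈ W ↔ 5 * (U.filter (fun u => u + g ∉ U)).card ≤ U.card) ∧
      (∀ g ∈ R, g ∈ W) ∧
      (U.filter (fun u => u - m0 ∉ W)).card ≤ 4 * t ∧
      Nat.card W ≤ U.card + 3 * t ∧ U.card ≤ Nat.card W + 4 * t := by
  exact main_aux U R t hU hR ht hov

end Pool.Agent.SC4.TN
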