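import Mathlib

set_option autoImplicit false

/-
MODULE Three (size M-L). Three transversal subgroups: many almost periods.
A = image of S in M/Y (columns), B = image of S in M/X (rows), T = image of S in M/Z; sizes <= D.
For a in A let S_a = {s in S : s mod Y = a}; |S_a| <= D because s -> s mod X is injective on S_a
(X cap Y = 0) with values in B. Put th = 20 k. A column is good if |S_a| + th >= D (natural numbers).
sum_{a in A} (D - |S_a|) = D|A| - |S| <= D^2 - |S| <= k D, every bad column contributes >= th, so
20 * #bad <= D. |A| * D >= |S| >= D^2 - k D gives |A| >= D - k, so with 100 k <= D there are at least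
D - k - D/20 >= (94/100) D good columns. In the same way rows S^b = {s : s mod X = b}, b in B, have at
most D elements (s -> s mod Y injective), good rows, 20 * #bad rows <= D.
Fix a good column a0 (exists since D > 0). Let a be a good column. On S_a and on S_{a0} the map
s -> s mod Z is injective (Y cap Z = 0) with values in T, |T| <= D, so at least D - 2 th classes mod Z
are hit by both. For such a class take s in S_a, s0 in S_{a0} with s - s0 in Z. For two classes the
difference (s - s0) - (s' - s0') = (s - s') - (s0 - s0') is in Z and in Y, hence 0: there is z = z_a in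
Z with s = s0 + z for all of them. So
  (m1)  #{ s0 in S_{a0} : s0 + z in S_a } >= D - 2 th.
(B) the map s0 -> s0 mod X is injective on S_{a0}: #{ b in B : b + (z mod X) in B } >= D - 2 th, so
    #{ b in B : b + (z mod X) notin B } <= 2 th.
(A) among the s0 of (m1) at most D/20 lie in a bad row and for at most D/20 the point s0 + z lies in a
    bad row (each row meets a column in at most one point); D - 2 th - D/10 > 0 (100 k <= D, k >= 1), so
    there is s0 with rows b0 = s0 mod X and b1 = (s0 + z) mod X both good. As for columns: at least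
    D - 2 th classes mod Z are hit by both S^{b0} and S^{b1} (injectivity mod Z on rows: X cap Z = 0);
    for s1 in S^{b0}, s2 in S^{b1} with s2 - s1 in Z: (s2 - s1) - z = (s2 - (s0+z)) - (s1 - s0) is in X
    and in Z, so s2 = s1 + z. Hence #{ a' in A : a' + (z mod Y) in A } >= D - 2 th and
    #{ a' in A : a' + (z mod Y) notin A } <= 2 th.
(S) let s in S with s + z notin S. Either (s mod Y) + (z mod Y) notin A: at most 2 th columns, each with
    at most D points; or (s mod X) + (z mod X) notin B: at most 2 th D points; or the cell
    ((s+z) mod Y, (s+z) mod X) lies in A x B but is not the cell of a point of S (the map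
    m -> (m mod Y, m mod X) is injective on M); different s give different cells and there are at most
    |A||B| - |S| <= D^2 - |S| <= k D such cells. Total <= 4 th D + k D = 81 k D.
Gz = { z_a : a good }; a = a0 + (z_a mod Y) shows that a -> z_a is injective, so |Gz| >= 0.9 D.
-/

namespace Pool.Agent.SC4.TN

private lemma fib_good {M A : Type*} [DecidableEq A] (S : Finset M) (f : M → A) (D k : ℕ) (hk : 1 ≤ k)
    (hfib : ∀ a, (S.filter (fun s => f s = a)).card ≤ D) (hA : (S.image f).card ≤ D)
    (hS : D ^ 2 ≤ S.card + k * D) :
    20 * ((S.image f).filter (fun a => (S.filter (fun s => f s = a)).card + 20 * k < D)).card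
      ≤ D := by
  set bad := (S.image f).filter (fun a => (S.filter (fun s => f s = a)).card + 20 * k < D)
    with hbad
  have h1 : S.card = ∑ a ∈ S.image f, (S.filter (fun s => f s = a)).card :=
    Finset.card_eq_sum_card_image f S
  have h2 : ∑ a ∈ S.image f, ((S.filter (fun s => f s = a)).card +
      (if (S.filter (fun s => f s = a)).card + 20 * k < D then 20 * k else 0)) ≤
      (S.image f).card * D := by
    apply Finset.sum_le_card_nsmul
    intro a ha
    split_ifs with h
    · omega
    · simpa using hfib a
  rw [Finset.sum_add_distrib, ← h1, ← Finset.sum_filter, Finset.sum_const, smul_eq_mul,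
    ← hbad] at h2
  have h3 : (S.image f).card * D ≤ D * D := Nat.mul_le_mul_right _ hA
  have h4 : bad.card * (20 * k) ≤ k * D := by nlinarith
  have h5 : k * (20 * bad.card) ≤ k * D := by nlinarith
  exact Nat.le_of_mul_le_mul_left h5 (by omega)

private lemma fib_many {M A : Type*} [DecidableEq A] (S : Finset M) (f : M → A) (D k : ℕ) (hD : 100 * k ≤ D)
    (hD0 : 0 < D)
    (hfib : ∀ a, (S.filter (fun s => f s = a)).card ≤ D)
    (hS : D ^ 2 ≤ S.card + k * D)
    (hb : 20 * ((S.image f).filter (fun a => (S.filter (fun s => f s = a)).card + 20 * k < D)).card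
      ≤ D) :
    9 * D ≤ 10 * ((S.image f).filter
      (fun a => ¬ ((S.filter (fun s => f s = a)).card + 20 * k < D))).card := by
  have h1 : S.card = ∑ a ∈ S.image f, (S.filter (fun s => f s = a)).card :=
    Finset.card_eq_sum_card_image f S
  have h2 : S.card ≤ (S.image f).card * D := by
    rw [h1]
    exact Finset.sum_le_card_nsmul _ _ _ (fun a _ => hfib a)
  have h3 : D * D ≤ ((S.image f).card + k) * D := by nlinarith
  have h4 : D ≤ (S.image f).card + k := Nat.le_of_mul_le_mul_right h3 hD0
  have h5 := Finset.card_filter_add_card_filter_not (s := S.image f)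
    (fun a => (S.filter (fun s => f s = a)).card + 20 * k < D)
  omega

private lemma shift {M : Type*} [AddCommGroup M] [DecidableEq M] (K Z : AddSubgroup M)
    [DecidableEq (M ⧸ Z)] (hKZ : K ⊓ Z = ⊥)
    (S S1 S2 : Finset M) (D k : ℕ) (hS1 : S1 ⊆ S) (hS2 : S2 ⊆ S)
    (hT : (S.image (QuotientAddGroup.mk' Z)).card ≤ D)
    (h1 : ∀ s ∈ S1, ∀ t ∈ S1, s - t ∈ K) (h2 : ∀ s ∈ S2, ∀ t ∈ S2, s - t ∈ K)
    (c1 : D ≤ S1.card + 20 * k) (c2 : D ≤ S2.card + 20 * k) (hlt : 40 * k < D) :
    ∃ z ∈ Z, D ≤ (S1.filter (fun s => s + z ∈ S2)).card + 40 * k := by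
  have key : ∀ m : M, m ∈ K → m ∈ Z → m = 0 := by
    intro m hm hm'
    have : m ∈ K ⊓ Z := ⟨hm, hm'⟩
    rw [hKZ] at this
    simpa using this
  have inj : ∀ R : Finset M, (∀ s ∈ R, ∀ t ∈ R, s - t ∈ K) →
      (R.image (QuotientAddGroup.mk' Z)).card = R.card := by
    intro R hR
    apply Finset.card_image_of_injOn
    intro s hs t ht hst
    have h3 : -s + t ∈ Z := QuotientAddGroup.eq.mp hst
    have h4 : t - s ∈ K := hR t ht s hs
    have h5 : t - s = 0 := key _ h4 (by rwa [sub_eq_neg_add])
    exact (sub_eq_zero.mp h5).symm
  have e1 := inj S1 h1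
  have e2 := inj S2 h2
  have e3 := Finset.card_union_add_card_inter (S1.image (QuotientAddGroup.mk' Z))
    (S2.image (QuotientAddGroup.mk' Z))
  have e4 : (S1.image (QuotientAddGroup.mk' Z) ∪ S2.image (QuotientAddGroup.mk' Z)).card ≤ D :=
    (Finset.card_le_card (Finset.union_subset (Finset.image_subset_image hS1)
      (Finset.image_subset_image hS2))).trans hT
  have e5 : D ≤ (S1.image (QuotientAddGroup.mk' Z) ∩ S2.image (QuotientAddGroup.mk' Z)).card
      + 40 * k := by omega
  have e6 : (S1.image (QuotientAddGroup.mk' Z) ∩ S2.image (QuotientAddGroup.mk' Z)).Nonempty := by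
    rw [← Finset.card_pos]
    omega
  obtain ⟨c, hc⟩ := e6
  rw [Finset.mem_inter, Finset.mem_image, Finset.mem_image] at hc
  obtain ⟨⟨s0, hs0, hs0c⟩, ⟨s0', hs0', hs0'c⟩⟩ := hc
  have hz : s0' - s0 ∈ Z := by
    have h3 : -s0 + s0' ∈ Z := QuotientAddGroup.eq.mp (hs0c.trans hs0'c.symm)
    rwa [sub_eq_neg_add]
  refine ⟨s0' - s0, hz, e5.trans ?_⟩
  gcongr
  calc _ ≤ ((S1.filter (fun s => s + (s0' - s0) ∈ S2)).image (QuotientAddGroup.mk' Z)).card := by
        apply Finset.card_le_card
        intro d hd
        rw [Finset.mem_inter, Finset.mem_image, Finset.mem_image] at hd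
        obtain ⟨⟨t0, ht0, ht0d⟩, ⟨t0', ht0', ht0'd⟩⟩ := hd
        rw [Finset.mem_image]
        refine ⟨t0, ?_, ht0d⟩
        rw [Finset.mem_filter]
        refine ⟨ht0, ?_⟩
        have h3 : -t0 + t0' ∈ Z := QuotientAddGroup.eq.mp (ht0d.trans ht0'd.symm)
        have h4 : (t0' - s0') - (t0 - s0) ∈ K := K.sub_mem (h2 _ ht0' _ hs0') (h1 _ ht0 _ hs0)
        have h5 : (t0' - t0) - (s0' - s0) ∈ Z := by
          refine Z.sub_mem ?_ hz
          rwa [sub_eq_neg_add]
        have h6 : (t0' - t0) - (s0' - s0) = 0 := by
          refine key _ ?_ h5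
          have : (t0' - t0) - (s0' - s0) = (t0' - s0') - (t0 - s0) := by abel
          rw [this]; exact h4
        have h7 : t0 + (s0' - s0) = t0' := by
          have : t0' - t0 = s0' - s0 := sub_eq_zero.mp h6
          rw [← this]; abel
        rw [h7]; exact ht0'
    _ ≤ _ := Finset.card_image_le

private lemma miss {M A : Type*} [AddCommGroup M] [AddCommGroup A] [DecidableEq A] (φ : M →+ A)
    (S S1 : Finset M) (z : M) (D n : ℕ)
    (hA : (S.image φ).card ≤ D) (hinj : ∀ s ∈ S1, ∀ t ∈ S1, φ s = φ t → s = t)
    (hS1 : S1 ⊆ S) (hz : ∀ s ∈ S1, s + z ∈ S) (hc : D ≤ S1.card + n) :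
    ((S.image φ).filter (fun a => a + φ z ∉ S.image φ)).card ≤ n := by
  have h1 := Finset.card_filter_add_card_filter_not (s := S.image φ)
    (fun a => a + φ z ∈ S.image φ)
  have h2 : S1.card ≤ ((S.image φ).filter (fun a => a + φ z ∈ S.image φ)).card := by
    apply Finset.card_le_card_of_injOn φ
    · intro s hs
      rw [Finset.mem_coe, Finset.mem_filter]
      refine ⟨Finset.mem_image_of_mem _ (hS1 hs), ?_⟩
      rw [← map_add]
      exact Finset.mem_image_of_mem _ (hz s hs)
    · intro s hs t ht h
      exact hinj s hs t ht h
  omega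

private lemma fill {M A : Type*} [DecidableEq A] (S R : Finset M) (f : M → A) (Q : Finset A) (D : ℕ)
    (hfib : ∀ a, (S.filter (fun s => f s = a)).card ≤ D) (hR : ∀ s ∈ R, s ∈ S ∧ f s ∈ Q) :
    R.card ≤ Q.card * D := by
  have h1 : R.card = ∑ a ∈ Q, (R.filter (fun s => f s = a)).card :=
    Finset.card_eq_sum_card_fiberwise (fun s hs => (hR s hs).2)
  rw [h1]
  apply Finset.sum_le_card_nsmul
  intro a _
  refine (Finset.card_le_card ?_).trans (hfib a)
  intro s hs
  rw [Finset.mem_filter] at hs ⊢
  exact ⟨(hR s hs.1).1, hs.2⟩

open Classical in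
theorem three {M : Type*} [AddCommGroup M] (X Y Z : AddSubgroup M)
    (hXY : X ⊓ Y = ⊥) (hXZ : X ⊓ Z = ⊥) (hYZ : Y ⊓ Z = ⊥) (S : Finset M) (D k : ℕ)
    (hk : 1 ≤ k) (hD : 100 * k ≤ D)
    (hX : (S.image (fun s => (s : M ⧸ X))).card ≤ D)
    (hY : (S.image (fun s => (s : M ⧸ Y))).card ≤ D)
    (hZ : (S.image (fun s => (s : M ⧸ Z))).card ≤ D)
    (hS : D ^ 2 ≤ S.card + k * D) :
    ∃ Gz : Finset M, (∀ z ∈ Gz, z ∈ Z) ∧ 9 * D ≤ 10 * Gz.card ∧
      ∀ z ∈ Gz, (S.filter (fun s => s + z ∉ S)).card ≤ 81 * k * D := by
  have hD0 : 0 < D := by omega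
  -- coordinates
  let col : M →+ M ⧸ Y := QuotientAddGroup.mk' Y
  let row : M →+ M ⧸ X := QuotientAddGroup.mk' X
  have colEq : ∀ s t : M, col s = col t ↔ t - s ∈ Y := by
    intro s t
    show ((s : M) : M ⧸ Y) = (t : M) ↔ _
    rw [QuotientAddGroup.eq, sub_eq_neg_add]
  have rowEq : ∀ s t : M, row s = row t ↔ t - s ∈ X := by
    intro s t
    show ((s : M) : M ⧸ X) = (t : M) ↔ _
    rw [QuotientAddGroup.eq, sub_eq_neg_add]
  have hX' : (S.image row).card ≤ D := by
    refine le_trans (le_of_eq ?_) hX
    congr 1
    ext a
    simp [Finset.mem_image, row]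
  have hY' : (S.image col).card ≤ D := by
    refine le_trans (le_of_eq ?_) hY
    congr 1
    ext a
    simp [Finset.mem_image, col]
  have hZ' : (S.image (QuotientAddGroup.mk' Z)).card ≤ D := by
    refine le_trans (le_of_eq ?_) hZ
    congr 1
    ext a
    simp [Finset.mem_image]
  have inj : ∀ s t : M, col s = col t → row s = row t → s = t := by
    intro s t h1 h2
    have : t - s ∈ X ⊓ Y := ⟨(rowEq s t).mp h2, (colEq s t).mp h1⟩
    rw [hXY] at this
    have h3 : t - s = 0 := by simpa using this
    exact (sub_eq_zero.mp h3).symm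
  have fibc : ∀ a, (S.filter (fun s => col s = a)).card ≤ D := by
    intro a
    refine le_trans ?_ hX'
    apply Finset.card_le_card_of_injOn row
    · intro s hs
      exact Finset.mem_image_of_mem _ (Finset.mem_filter.mp hs).1
    · intro s hs t ht h
      have hs' := (Finset.mem_filter.mp hs).2
      have ht' := (Finset.mem_filter.mp ht).2
      exact inj s t (hs'.trans ht'.symm) h
  have fibr : ∀ b, (S.filter (fun s => row s = b)).card ≤ D := by
    intro b
    refine le_trans ?_ hY'
    apply Finset.card_le_card_of_injOn col
    · intro s hs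
      exact Finset.mem_image_of_mem _ (Finset.mem_filter.mp hs).1
    · intro s hs t ht h
      have hs' := (Finset.mem_filter.mp hs).2
      have ht' := (Finset.mem_filter.mp ht).2
      exact inj s t h (hs'.trans ht'.symm)
  have badc := fib_good S col D k hk fibc hY' hS
  have badr := fib_good S row D k hk fibr hX' hS
  have goodc := fib_many S col D k hD hD0 fibc hS badc
  set GC := (S.image col).filter
      (fun a => ¬ ((S.filter (fun s => col s = a)).card + 20 * k < D)) with hGC
  set BR := (S.image row).filter
      (fun b => (S.filter (fun s => row s = b)).card + 20 * k < D) with hBR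
  have hne : GC.Nonempty := by
    rw [← Finset.card_pos]; omega
  obtain ⟨a0, ha0⟩ := hne
  have ca0 : D ≤ (S.filter (fun s => col s = a0)).card + 20 * k := by
    have := (Finset.mem_filter.mp ha0).2
    omega
  have main : ∀ a ∈ GC, ∃ z, z ∈ Z ∧ a = a0 + col z ∧
      (S.filter (fun s => s + z ∉ S)).card ≤ 81 * k * D := by
    intro a ha
    have ca : D ≤ (S.filter (fun s => col s = a)).card + 20 * k := by
      have := (Finset.mem_filter.mp ha).2
      omega
    obtain ⟨z, hzZ, hm⟩ := shift Y Z hYZ S (S.filter (fun s => col s = a0))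
      (S.filter (fun s => col s = a)) D k (Finset.filter_subset _ _) (Finset.filter_subset _ _) hZ'
      (by
        intro s hs t ht
        have hs' := (Finset.mem_filter.mp hs).2
        have ht' := (Finset.mem_filter.mp ht).2
        exact (colEq t s).mp (ht'.trans hs'.symm))
      (by
        intro s hs t ht
        have hs' := (Finset.mem_filter.mp hs).2
        have ht' := (Finset.mem_filter.mp ht).2
        exact (colEq t s).mp (ht'.trans hs'.symm)) ca0 ca (by omega)
    set Q := (S.filter (fun s => col s = a0)).filter
      (fun s => s + z ∈ S.filter (fun s => col s = a)) with hQ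
    have memQ : ∀ s, s ∈ Q ↔ (s ∈ S ∧ col s = a0) ∧ (s + z ∈ S ∧ col (s + z) = a) := by
      intro s
      rw [hQ, Finset.mem_filter, Finset.mem_filter, Finset.mem_filter]
    have rowQ : ∀ s ∈ Q, ∀ t ∈ Q, row s = row t → s = t := by
      intro s hs t ht h
      have hs' := ((memQ s).mp hs).1.2
      have ht' := ((memQ t).mp ht).1.2
      exact inj s t (hs'.trans ht'.symm) h
    -- rows
    have missr : ((S.image row).filter (fun b => b + row z ∉ S.image row)).card ≤ 40 * k :=
      miss row S Q z D (40 * k) hX' rowQ (fun s hs => ((memQ s).mp hs).1.1)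
        (fun s hs => ((memQ s).mp hs).2.1) hm
    -- a point with two good rows
    have hQ1 : (Q.filter (fun s => row s ∈ BR)).card ≤ BR.card := by
      apply Finset.card_le_card_of_injOn row
      · intro s hs
        exact (Finset.mem_filter.mp hs).2
      · intro s hs t ht h
        exact rowQ s (Finset.mem_filter.mp hs).1 t (Finset.mem_filter.mp ht).1 h
    have hQ2 : (Q.filter (fun s => row (s + z) ∈ BR)).card ≤ BR.card := by
      apply Finset.card_le_card_of_injOn (fun s => row (s + z))
      · intro s hs
        exact (Finset.mem_filter.mp hs).2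
      · intro s hs t ht h
        refine rowQ s (Finset.mem_filter.mp hs).1 t (Finset.mem_filter.mp ht).1 ?_
        have h' : row (s + z) = row (t + z) := h
        rw [map_add, map_add] at h'
        exact add_right_cancel h'
    have hex : ∃ s0 ∈ Q, row s0 ∉ BR ∧ row (s0 + z) ∉ BR := by
      by_contra hcon
      push Not at hcon
      have hsub : Q ⊆ Q.filter (fun s => row s ∈ BR) ∪ Q.filter (fun s => row (s + z) ∈ BR) := by
        intro s hs
        by_cases h : row s ∈ BR
        · exact Finset.mem_union_left _ (Finset.mem_filter.mpr ⟨hs, h⟩)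
        · exact Finset.mem_union_right _ (Finset.mem_filter.mpr ⟨hs, hcon s hs h⟩)
      have h1 := (Finset.card_le_card hsub).trans (Finset.card_union_le _ _)
      omega
    obtain ⟨s0, hs0, hb0, hb1⟩ := hex
    have hs0' := (memQ s0).mp hs0
    have cb0 : D ≤ (S.filter (fun s => row s = row s0)).card + 20 * k := by
      rw [hBR, Finset.mem_filter] at hb0
      push Not at hb0
      exact hb0 (Finset.mem_image_of_mem _ hs0'.1.1)
    have cb1 : D ≤ (S.filter (fun s => row s = row (s0 + z))).card + 20 * k := by
      rw [hBR, Finset.mem_filter] at hb1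
      push Not at hb1
      exact hb1 (Finset.mem_image_of_mem _ hs0'.2.1)
    obtain ⟨z', hz'Z, hm'⟩ := shift X Z hXZ S (S.filter (fun s => row s = row s0))
      (S.filter (fun s => row s = row (s0 + z))) D k (Finset.filter_subset _ _)
      (Finset.filter_subset _ _) hZ'
      (by
        intro s hs t ht
        have hs' := (Finset.mem_filter.mp hs).2
        have ht' := (Finset.mem_filter.mp ht).2
        exact (rowEq t s).mp (ht'.trans hs'.symm))
      (by
        intro s hs t ht
        have hs' := (Finset.mem_filter.mp hs).2
        have ht' := (Finset.mem_filter.mp ht).2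
        exact (rowEq t s).mp (ht'.trans hs'.symm)) cb0 cb1 (by omega)
    set Q' := (S.filter (fun s => row s = row s0)).filter
      (fun s => s + z' ∈ S.filter (fun s => row s = row (s0 + z))) with hQ'
    have memQ' : ∀ s, s ∈ Q' ↔ (s ∈ S ∧ row s = row s0) ∧
        (s + z' ∈ S ∧ row (s + z') = row (s0 + z)) := by
      intro s
      rw [hQ', Finset.mem_filter, Finset.mem_filter, Finset.mem_filter]
    have hzz : z' = z := by
      have hne' : Q'.Nonempty := by
        rw [← Finset.card_pos]; omega
      obtain ⟨s1, hs1⟩ := hne'
      have hs1' := (memQ' s1).mp hs1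
      have e1 : row z' = row z := by
        have h1 := hs1'.2.2
        rw [map_add, map_add, hs1'.1.2] at h1
        exact add_left_cancel h1
      have e2 : z - z' ∈ X := (rowEq z' z).mp e1
      have e3 : z - z' ∈ Z := Z.sub_mem hzZ hz'Z
      have : z - z' ∈ X ⊓ Z := ⟨e2, e3⟩
      rw [hXZ] at this
      have h3 : z - z' = 0 := by simpa using this
      exact (sub_eq_zero.mp h3).symm
    have missc : ((S.image col).filter (fun b => b + col z ∉ S.image col)).card ≤ 40 * k := by
      refine miss col S Q' z D (40 * k) hY' ?_ (fun s hs => ((memQ' s).mp hs).1.1) ?_ hm'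
      · intro s hs t ht h
        have hs' := ((memQ' s).mp hs).1.2
        have ht' := ((memQ' t).mp ht).1.2
        exact inj s t h (hs'.trans ht'.symm)
      · intro s hs
        rw [← hzz]
        exact ((memQ' s).mp hs).2.1
    refine ⟨z, hzZ, ?_, ?_⟩
    · have := hs0'.2.2
      rw [map_add, hs0'.1.2] at this
      exact this.symm
    · -- the count
      have r1 : (S.filter (fun s => col s + col z ∉ S.image col)).card ≤ 40 * k * D := by
        refine (fill S _ col ((S.image col).filter (fun b => b + col z ∉ S.image col)) D fibc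
          ?_).trans (Nat.mul_le_mul_right _ missc)
        intro s hs
        rw [Finset.mem_filter] at hs
        refine ⟨hs.1, ?_⟩
        rw [Finset.mem_filter]
        exact ⟨Finset.mem_image_of_mem _ hs.1, hs.2⟩
      have r2 : (S.filter (fun s => row s + row z ∉ S.image row)).card ≤ 40 * k * D := by
        refine (fill S _ row ((S.image row).filter (fun b => b + row z ∉ S.image row)) D fibr
          ?_).trans (Nat.mul_le_mul_right _ missr)
        intro s hs
        rw [Finset.mem_filter] at hs
        refine ⟨hs.1, ?_⟩
        rw [Finset.mem_filter]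
        exact ⟨Finset.mem_image_of_mem _ hs.1, hs.2⟩
      have r3 : (S.filter (fun s => s + z ∉ S ∧ col s + col z ∈ S.image col ∧
          row s + row z ∈ S.image row)).card ≤ k * D := by
        have i1 : (S.filter (fun s => s + z ∉ S ∧ col s + col z ∈ S.image col ∧
          row s + row z ∈ S.image row)).card ≤
            ((S.image col ×ˢ S.image row) \ S.image (fun s => (col s, row s))).card := by
          apply Finset.card_le_card_of_injOn (fun s => (col (s + z), row (s + z)))
          · intro s hs
            rw [Finset.mem_coe, Finset.mem_filter] at hs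
            rw [Finset.mem_coe, Finset.mem_sdiff, Finset.mem_product]
            refine ⟨⟨?_, ?_⟩, ?_⟩
            · show col (s + z) ∈ _
              rw [map_add]; exact hs.2.2.1
            · show row (s + z) ∈ _
              rw [map_add]; exact hs.2.2.2
            · intro hmem
              rw [Finset.mem_image] at hmem
              obtain ⟨t, ht, hte⟩ := hmem
              have h1 : col t = col (s + z) := congrArg Prod.fst hte
              have h2 : row t = row (s + z) := congrArg Prod.snd hte
              have h3 := inj t (s + z) h1 h2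
              rw [h3] at ht
              exact hs.2.1 ht
          · intro s hs t ht h
            have h1 : col (s + z) = col (t + z) := congrArg Prod.fst h
            have h2 : row (s + z) = row (t + z) := congrArg Prod.snd h
            exact add_right_cancel (inj _ _ h1 h2)
        have i2 : S.image (fun s => (col s, row s)) ⊆ S.image col ×ˢ S.image row := by
          intro c hc
          rw [Finset.mem_image] at hc
          obtain ⟨t, ht, hte⟩ := hc
          rw [Finset.mem_product, ← hte]
          exact ⟨Finset.mem_image_of_mem _ ht, Finset.mem_image_of_mem _ ht⟩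
        have i3 : (S.image (fun s => (col s, row s))).card = S.card := by
          apply Finset.card_image_of_injOn
          intro s _ t _ h
          exact inj s t (congrArg Prod.fst h) (congrArg Prod.snd h)
        rw [Finset.card_sdiff_of_subset i2, i3, Finset.card_product] at i1
        have i4 : (S.image col).card * (S.image row).card ≤ D * D := Nat.mul_le_mul hY' hX'
        have i5 : D * D ≤ S.card + k * D := by rw [← pow_two]; exact hS
        omega
      have hsub : S.filter (fun s => s + z ∉ S) ⊆
          (S.filter (fun s => col s + col z ∉ S.image col) ∪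
            S.filter (fun s => row s + row z ∉ S.image row)) ∪
          S.filter (fun s => s + z ∉ S ∧ col s + col z ∈ S.image col ∧
            row s + row z ∈ S.image row) := by
        intro s hs
        rw [Finset.mem_filter] at hs
        rw [Finset.mem_union, Finset.mem_union, Finset.mem_filter, Finset.mem_filter,
          Finset.mem_filter]
        by_cases h1 : col s + col z ∈ S.image col
        · by_cases h2 : row s + row z ∈ S.image row
          · exact Or.inr ⟨hs.1, hs.2, h1, h2⟩
          · exact Or.inl (Or.inr ⟨hs.1, h2⟩)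
        · exact Or.inl (Or.inl ⟨hs.1, h1⟩)
      have t1 := Finset.card_le_card hsub
      have t2 := Finset.card_union_le (S.filter (fun s => col s + col z ∉ S.image col) ∪
            S.filter (fun s => row s + row z ∉ S.image row))
          (S.filter (fun s => s + z ∉ S ∧ col s + col z ∈ S.image col ∧
            row s + row z ∈ S.image row))
      have t3 := Finset.card_union_le (S.filter (fun s => col s + col z ∉ S.image col))
            (S.filter (fun s => row s + row z ∉ S.image row))
      have t4 : 81 * k * D = 40 * k * D + 40 * k * D + k * D := by ring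
      omega
  choose! zf hzf using main
  refine ⟨GC.image zf, ?_, ?_, ?_⟩
  · intro z hz
    rw [Finset.mem_image] at hz
    obtain ⟨a, ha, rfl⟩ := hz
    exact (hzf a ha).1
  · rw [Finset.card_image_of_injOn]
    · exact goodc
    · intro a ha b hb hab
      have h1 := (hzf a ha).2.1
      have h2 := (hzf b hb).2.1
      have hab' : zf a = zf b := hab
      rw [h1, h2, hab']
  · intro z hz
    rw [Finset.mem_image] at hz
    obtain ⟨a, ha, rfl⟩ := hz
    exact (hzf a ha).2.2

end Pool.Agent.SC4.TN
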