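import Mathlib
import Pool.Agent.Work.MP_2d1b31_co.TN.Gap
import Pool.Agent.Work.MP_2d1b31_co.TN.Three

set_option autoImplicit false

/-
MODULE Assembly (size M). Cites `gap` and `three`.
Write def(g) = #{u in U : u + g notin U}.
(1) For pairwise different x, y, z in I put S = J x ∩ J y ∩ J z. |U \ S| <= 3 zeta <= k D (6 zeta <= k D)
and D^2 <= |U| + 3 zeta <= |S| + 6 zeta <= |S| + k D. The image of S in M / H x is contained in the
image of J x, so `three` applies (X = H x, Y = H y, Z = H z): there is G in H z, 9 D <= 10 |G|, with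
#{s in S : s + g notin S} <= 81 k D for g in G; then def(g) <= |U \ S| + 81 k D <= 82 k D.
(2) Fix different z, z' in I and a third element (3 <= |I|): by (1) G in H z, G' in H z' (for G' use the
same three elements in another order). R = G + G' (image of the product; the sum map is injective on
H z x H z' because H z ⊓ H z' = ⊥) has |G||G'| >= (81/100) D^2 elements, def <= 164 k D =: t.
|U| <= D^2 + D, so 3|U| <= 3D^2 + 3D <= (81/25) D^2 <= 4|R| as D >= 4000. |U| >= D^2 - 3 zeta
>= D^2 - k D/2 >= D^2 - D^2/8000, 20 t = 3280 k D <= (3280/4000) D^2 <= |U|. So `gap` applies with t.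
The subgroup W of `gap` is given by the condition 5 def(g) <= |U|, hence the same for all choices of
z, z'; so by (1) (5 * 82 k D <= |U|): |W ⊓ H z| >= (9/10) D for EVERY z in I.
(3) For z <> z' in I the sum map (W ⊓ H z) x (W ⊓ H z') -> W is an injective homomorphism, so
|W ⊓ H z| * |W ⊓ H z'| divides |W|; it is >= (81/100) D^2 and |W| <= |U| + 3 t
<= D^2 + D + 492 k D <= (1 + 1/4000 + 123/1000) D^2 < 2 * (81/100) D^2, so it is equal to |W|.
(4) With three different elements x, y, z: |W⊓Hx||W⊓Hy| = |W⊓Hx||W⊓Hz| = |W⊓Hy||W⊓Hz|, all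
positive, so all |W ⊓ H x| (x in I) are equal to one number h and |W| = h^2.
(5) |W| <= |U| + 3 t = |U| + 492 k D and |U| <= |W| + 4 t = |W| + 656 k D; m0 is the one of `gap`
(4 t = 656 k D).
-/

namespace Pool.Agent.SC4.TN

open Classical in
private theorem def_add {M : Type*} [AddCommGroup M] (U : Finset M) (g h : M) :
    (U.filter (fun u => u + (g + h) ∉ U)).card ≤
      (U.filter (fun u => u + g ∉ U)).card + (U.filter (fun u => u + h ∉ U)).card := by
  have h1 : U.filter (fun u => u + (g + h) ∉ U) ⊆ U.filter (fun u => u + g ∉ U) ∪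
      (U.filter (fun u => u + h ∉ U)).image (fun v => v - g) := by
    intro u hu
    rw [Finset.mem_filter] at hu
    rw [Finset.mem_union, Finset.mem_filter, Finset.mem_image]
    by_cases h2 : u + g ∈ U
    · right
      refine ⟨u + g, ?_, by abel⟩
      rw [Finset.mem_filter]
      refine ⟨h2, ?_⟩
      rw [add_assoc]
      exact hu.2
    · exact Or.inl ⟨hu.1, h2⟩
  refine (Finset.card_le_card h1).trans ((Finset.card_union_le _ _).trans ?_)
  exact Nat.add_le_add_left Finset.card_image_le _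

open Classical in
private theorem conv {M : Type*} [AddCommGroup M] (X : AddSubgroup M) (S : Finset M) :
    (S.image (fun s => (s : M ⧸ X))) =
      S.image (fun s : M => (QuotientAddGroup.mk s : M ⧸ X)) := by
  ext q
  simp [Finset.bind_def]

open Classical in
private theorem step1 {M : Type*} [AddCommGroup M] {ι : Type*} (I : Finset ι)
    (H : ι → AddSubgroup M) (hH : ∀ x ∈ I, ∀ y ∈ I, x ≠ y → H x ⊓ H y = ⊥)
    (U : Finset M) (J : ι → Finset M) (hJ : ∀ x ∈ I, J x ⊆ U) (D k ζ : ℕ)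
    (hk : 1 ≤ k) (hD : 4000 * k ≤ D)
    (hcos : ∀ x ∈ I, ((J x).image (fun s => (s : M ⧸ H x))).card ≤ D)
    (hζ : ∀ x ∈ I, (U \ J x).card ≤ ζ) (hζk : 6 * ζ ≤ k * D)
    (hlo : D ^ 2 ≤ U.card + 3 * ζ) (x y z : ι) (hx : x ∈ I) (hy : y ∈ I) (hz : z ∈ I)
    (hxy : x ≠ y) (hxz : x ≠ z) (hyz : y ≠ z) :
    ∃ G : Finset M, (∀ g ∈ G, g ∈ H z) ∧ 9 * D ≤ 10 * G.card ∧
      ∀ g ∈ G, (U.filter (fun u => u + g ∉ U)).card ≤ 82 * k * D := by
  set S := J x ∩ J y ∩ J z with hS
  have hSU : S ⊆ U := fun s hs => hJ x hx (Finset.mem_inter.1 (Finset.mem_inter.1 hs).1).1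
  have hUS : (U \ S).card ≤ 3 * ζ := by
    have h1 : U \ S ⊆ (U \ J x) ∪ (U \ J y) ∪ (U \ J z) := by
      intro u hu
      simp only [hS, Finset.mem_sdiff, Finset.mem_inter, Finset.mem_union] at hu ⊢
      tauto
    have h2 := Finset.card_le_card h1
    have h3 := Finset.card_union_le ((U \ J x) ∪ (U \ J y)) (U \ J z)
    have h4 := Finset.card_union_le (U \ J x) (U \ J y)
    have h5 := hζ x hx
    have h6 := hζ y hy
    have h7 := hζ z hz
    omega
  have hcard : (U \ S).card + S.card = U.card := Finset.card_sdiff_add_card_eq_card hSU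
  have im : ∀ w ∈ I, S ⊆ J w → (S.image (fun s => (s : M ⧸ H w))).card ≤ D := by
    intro w hw hsub
    have h1 := hcos w hw
    rw [conv] at h1 ⊢
    exact (Finset.card_le_card (Finset.image_subset_image hsub)).trans h1
  have hx' : S ⊆ J x := fun s hs => (Finset.mem_inter.1 (Finset.mem_inter.1 hs).1).1
  have hy' : S ⊆ J y := fun s hs => (Finset.mem_inter.1 (Finset.mem_inter.1 hs).1).2
  have hz' : S ⊆ J z := fun s hs => (Finset.mem_inter.1 hs).2
  obtain ⟨G, g1, g2, g3⟩ := three (H x) (H y) (H z) (hH x hx y hy hxy) (hH x hx z hz hxz)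
    (hH y hy z hz hyz) S D k hk (by omega) (im x hx hx') (im y hy hy') (im z hz hz') (by
      generalize D ^ 2 = D2 at *
      generalize k * D = kD at *
      omega)
  refine ⟨G, g1, g2, fun g hg => ?_⟩
  have h1 : U.filter (fun u => u + g ∉ U) ⊆ (U \ S) ∪ S.filter (fun s => s + g ∉ S) := by
    intro u hu
    rw [Finset.mem_filter] at hu
    rw [Finset.mem_union, Finset.mem_sdiff, Finset.mem_filter]
    by_cases h2 : u ∈ S
    · exact Or.inr ⟨h2, fun h3 => hu.2 (hSU h3)⟩
    · exact Or.inl ⟨hu.1, h2⟩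
  have h2 := Finset.card_le_card h1
  have h3 := Finset.card_union_le (U \ S) (S.filter (fun s => s + g ∉ S))
  have h4 := g3 g hg
  have e : 81 * k * D = 81 * (k * D) := by ring
  have e' : 82 * k * D = 82 * (k * D) := by ring
  rw [e] at h4
  rw [e']
  generalize k * D = kD at *
  omega

private theorem card_dvd {M : Type*} [AddCommGroup M] (A B W : AddSubgroup M) (hA : A ≤ W)
    (hB : B ≤ W) (h : A ⊓ B = ⊥) : Nat.card A * Nat.card B ∣ Nat.card W := by
  rw [← Nat.card_prod]
  let f : A × B →+ W :=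
    { toFun := fun p => ⟨(p.1 : M) + (p.2 : M), W.add_mem (hA p.1.2) (hB p.2.2)⟩
      map_zero' := by
        apply Subtype.ext
        simp
      map_add' := by
        intro p q
        apply Subtype.ext
        simp only [Prod.fst_add, Prod.snd_add, AddSubgroup.coe_add]
        abel }
  refine AddSubgroup.card_dvd_of_injective f ?_
  rw [injective_iff_map_eq_zero]
  rintro ⟨⟨a, ha⟩, ⟨b, hb⟩⟩ hp
  have h1 : a + b = 0 := congrArg Subtype.val hp
  have h2 : a = -b := eq_neg_of_add_eq_zero_left h1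
  have h3 : a ∈ A ⊓ B := ⟨ha, by rw [h2]; exact B.neg_mem hb⟩
  rw [h, AddSubgroup.mem_bot] at h3
  have h4 : b = 0 := by rw [h3, zero_add] at h1; exact h1
  subst h3
  subst h4
  rfl

open Classical in
theorem assembly {M : Type*} [AddCommGroup M] {ι : Type*} (I : Finset ι) (hI : 3 ≤ I.card)
    (H : ι → AddSubgroup M) (hH : ∀ x ∈ I, ∀ y ∈ I, x ≠ y → H x ⊓ H y = ⊥)
    (U : Finset M) (J : ι → Finset M) (hJ : ∀ x ∈ I, J x ⊆ U) (D k ζ : ℕ)
    (hk : 1 ≤ k) (hD : 4000 * k ≤ D)
    (hcos : ∀ x ∈ I, ((J x).image (fun s => (s : M ⧸ H x))).card ≤ D)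
    (hζ : ∀ x ∈ I, (U \ J x).card ≤ ζ) (hζk : 6 * ζ ≤ k * D)
    (hlo : D ^ 2 ≤ U.card + 3 * ζ) (hhi : U.card ≤ D ^ 2 + D) :
    ∃ (W : AddSubgroup M) (h : ℕ), Finite W ∧ Nat.card W = h ^ 2 ∧
      (∀ x ∈ I, Nat.card (W ⊓ H x : AddSubgroup M) = h) ∧
      h ^ 2 ≤ U.card + 492 * k * D ∧ U.card ≤ h ^ 2 + 656 * k * D ∧
      ∃ m0 : M, (U.filter (fun u => u - m0 ∉ W)).card ≤ 656 * k * D := by
  have st := step1 I H hH U J hJ D k ζ hk hD hcos hζ hζk hlo
  have hDD : 4000 * (k * D) ≤ D ^ 2 := by nlinarith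
  have hD4 : 4000 ≤ D := by nlinarith
  have hD2 : 4000 * D ≤ D ^ 2 := by nlinarith
  obtain ⟨x0, hx0, y0, hy0, z0, hz0, hxy, hxz, hyz⟩ := Finset.two_lt_card.1 (show 2 < I.card by omega)
  -- W
  obtain ⟨G, g1, g2, g3⟩ := st x0 y0 z0 hx0 hy0 hz0 hxy hxz hyz
  obtain ⟨G', k1, k2, k3⟩ := st x0 z0 y0 hx0 hz0 hy0 hxz hxy hyz.symm
  set R := (G ×ˢ G').image (fun p => p.1 + p.2) with hR
  have hRc : R.card = G.card * G'.card := by
    rw [hR, Finset.card_image_of_injOn, Finset.card_product]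
    rintro ⟨a, b⟩ hp ⟨c, d⟩ hq he
    rw [Finset.mem_coe, Finset.mem_product] at hp hq
    simp only at hp hq he
    have h1 : a - c = d - b := by
      rw [sub_eq_sub_iff_add_eq_add, he]
      abel
    have h2 : a - c ∈ H z0 ⊓ H y0 := by
      refine ⟨(H z0).sub_mem (g1 a hp.1) (g1 c hq.1), ?_⟩
      rw [h1]
      exact (H y0).sub_mem (k1 d hq.2) (k1 b hp.2)
    rw [hH z0 hz0 y0 hy0 hyz.symm, AddSubgroup.mem_bot] at h2
    have h3 : a = c := sub_eq_zero.1 h2
    have h4 : b = d := by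
      rw [h2] at h1
      exact (sub_eq_zero.1 h1.symm).symm
    rw [h3, h4]
  have hRlo : 81 * D ^ 2 ≤ 100 * R.card := by
    rw [hRc]
    nlinarith [Nat.mul_le_mul g2 k2]
  have hkD : 164 * k * D = 164 * (k * D) := by ring
  have hRdef : ∀ g ∈ R, (U.filter (fun u => u + g ∉ U)).card ≤ 164 * k * D := by
    intro g hg
    obtain ⟨⟨a, b⟩, hp, rfl⟩ := Finset.mem_image.1 hg
    rw [Finset.mem_product] at hp
    have h1 := def_add U a b
    have h2 := g3 a hp.1
    have h3 := k3 b hp.2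
    have e : 164 * k * D = 82 * k * D + 82 * k * D := by ring
    rw [e]
    exact h1.trans (Nat.add_le_add h2 h3)
  have hUc : 3 * U.card ≤ 4 * R.card := by
    generalize D ^ 2 = D2 at *
    omega
  have hUlo : 3280 * (k * D) + 1 ≤ U.card := by
    have : 1 ≤ k * D := by nlinarith
    generalize D ^ 2 = D2 at *
    generalize k * D = kD at *
    omega
  obtain ⟨W, m0, w1, w2, w3, w4, w5, w6⟩ := gap U R (164 * k * D)
    (Finset.card_pos.1 (by omega)) hUc (by rw [hkD]; omega) hRdef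
  have := w1
  have fin : ∀ z, Finite (W ⊓ H z : AddSubgroup M) := fun z =>
    Set.Finite.subset (s := (W : Set M)) (Set.toFinite _) (fun m hm => hm.1)
  -- the lower bound
  have low : ∀ z ∈ I, 9 * D ≤ 10 * Nat.card (W ⊓ H z : AddSubgroup M) := by
    intro z hz
    obtain ⟨x, hx, y, hy, hxy', hxz', hyz'⟩ : ∃ x ∈ I, ∃ y ∈ I, x ≠ y ∧ x ≠ z ∧ y ≠ z := by
      by_cases h1 : x0 = z
      · exact ⟨y0, hy0, z0, hz0, hyz, fun h => hxy (h1.trans h.symm), fun h => hxz (h1.trans h.symm)⟩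
      · by_cases h2 : y0 = z
        · exact ⟨x0, hx0, z0, hz0, hxz, h1, fun h => hyz (h2.trans h.symm)⟩
        · exact ⟨x0, hx0, y0, hy0, hxy, h1, h2⟩
    obtain ⟨Q, q1, q2, q3⟩ := st x y z hx hy hz hxy' hxz' hyz'
    refine q2.trans (Nat.mul_le_mul_left 10 ?_)
    have := fin z
    have h1 : ∀ g ∈ Q, g ∈ W ⊓ H z := by
      intro g hg
      refine ⟨(w2 g).2 ?_, q1 g hg⟩
      have h2 := q3 g hg
      have e : 82 * k * D = 82 * (k * D) := by ring
      rw [e] at h2
      omega
    have h2 : Nat.card (Q : Set M) = Q.card := by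
      rw [Nat.card_coe_set_eq, Set.ncard_coe_finset]
    rw [← h2]
    exact Nat.card_le_card_of_injective (fun q : (Q : Set M) => (⟨q.1, h1 q.1 q.2⟩ : (W ⊓ H z : AddSubgroup M)))
      (fun a b hab => by
        have h5 : (a : M) = (b : M) := by
          have := congrArg (fun q : (W ⊓ H z : AddSubgroup M) => (q : M)) hab
          exact this
        exact Subtype.ext h5)
  have e3 : 3 * (164 * k * D) = 492 * (k * D) := by ring
  have prod : ∀ z ∈ I, ∀ z' ∈ I, z ≠ z' →
      Nat.card (W ⊓ H z : AddSubgroup M) * Nat.card (W ⊓ H z' : AddSubgroup M) = Nat.card W := by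
    intro z hz z' hz' hne
    have h1 := card_dvd (W ⊓ H z) (W ⊓ H z') W inf_le_left inf_le_left (by
      have := hH z hz z' hz' hne
      rw [eq_bot_iff] at this ⊢
      exact (inf_le_inf inf_le_right inf_le_right).trans this)
    obtain ⟨q, hq⟩ := h1
    have l1 := low z hz
    have l2 := low z' hz'
    have l3 := Nat.mul_le_mul l1 l2
    have hWpos : 0 < Nat.card W := Nat.card_pos
    set P := Nat.card (W ⊓ H z : AddSubgroup M) * Nat.card (W ⊓ H z' : AddSubgroup M) with hP
    have l4 : 81 * D ^ 2 ≤ 100 * P := by rw [hP]; nlinarith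
    have l5 : Nat.card W < 2 * P := by
      rw [e3] at w5
      generalize D ^ 2 = D2 at *
      generalize k * D = kD at *
      omega
    have q1 : q = 1 := by
      rw [hq] at l5 hWpos
      have h2 : q < 2 := by
        by_contra hcon
        push Not at hcon
        nlinarith
      have h3 : q ≠ 0 := by
        rintro rfl
        simp at hWpos
      omega
    rw [hq, q1, mul_one]
  have hpos : ∀ z ∈ I, 0 < Nat.card (W ⊓ H z : AddSubgroup M) := fun z hz => by
    have := low z hz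
    omega
  have p1 := prod x0 hx0 y0 hy0 hxy
  have p2 := prod x0 hx0 z0 hz0 hxz
  have p3 := prod y0 hy0 z0 hz0 hyz
  have c1 : Nat.card (W ⊓ H y0 : AddSubgroup M) = Nat.card (W ⊓ H z0 : AddSubgroup M) :=
    Nat.eq_of_mul_eq_mul_left (hpos x0 hx0) (p1.trans p2.symm)
  have c2 : Nat.card (W ⊓ H x0 : AddSubgroup M) = Nat.card (W ⊓ H z0 : AddSubgroup M) := by
    rw [mul_comm] at p1
    exact Nat.eq_of_mul_eq_mul_left (hpos y0 hy0) (p1.trans p3.symm)
  have hW : Nat.card W = Nat.card (W ⊓ H x0 : AddSubgroup M) ^ 2 := by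
    rw [← p2, ← c2, sq]
  refine ⟨W, Nat.card (W ⊓ H x0 : AddSubgroup M), w1, hW, ?_, ?_, ?_, m0, ?_⟩
  · intro x hx
    by_cases h1 : x = x0
    · rw [h1]
    · have h2 := prod x0 hx0 x hx (Ne.symm h1)
      rw [hW, sq] at h2
      exact Nat.eq_of_mul_eq_mul_left (hpos x0 hx0) h2
  · rw [← hW]
    have e : 492 * k * D = 492 * (k * D) := by ring
    rw [e3] at w5
    rw [e]
    exact w5
  · rw [← hW]
    have e : 656 * k * D = 4 * (164 * k * D) := by ring
    rw [e]
    exact w6
  · have e : 656 * k * D = 4 * (164 * k * D) := by ring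
    rw [e]
    exact w4

end Pool.Agent.SC4.TN
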