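import Mathlib
import Pool.Agent.Work.MP_2d1b31_co.TN.Defs

set_option autoImplicit false

/-
MODULE Count (size M). Counting in a C4-free graph with minimum degree d = y + 1, N vertices,
E = N - d, zeta = E - y^2.
(0) For every vertex x: the sets N(v) \ {x}, v in N(x), are pairwise disjoint (a common element u of
N(v) \ {x} and N(v') \ {x} gives x <> u with the common neighbours v, v') and do not contain x, so
sum_{v in N(x)} (deg v - 1) <= N - 1. As deg v - 1 >= y: deg(x) * y <= N - 1, i.e.
(deg(x) - 1) * y <= N - 1 - y = E. In particular y^2 <= E (deg(x) >= y + 1).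
(1) For x in N(w) let Jv x = { u : Joined G w x u } = union over v in N(x) \ {w} of N(v) \ {x}:
disjoint union of deg(x) - 1 >= y sets of size >= y, so |Jv x| >= y^2.
(2) Jv x is disjoint from N(w): if u in N(v) \ {x}, v in N(x) \ {w}, and u ~ w, then w and v are
different and have the two different common neighbours x and u.
(3) Uv = union over x in I of Jv x (I nonempty) has at most N - deg(w) <= N - d = E elements, and
|Uv \ Jv x| <= E - y^2 = zeta.
(4) U = p(Uv), J x = p(Jv x); p is injective on Uv by the second clause of Translational. J x is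
contained in U, |U| = |Uv|, U \ J x = p(Uv \ Jv x).
(5) D = E / y (floor). By the third clause of Translational the image of J x in M / H x has at most
deg(x) - 1 elements (one for each line v in N(x) \ {w}), and (deg(x) - 1) y <= E gives <= D.
(6) |U| >= |J x| >= y^2. D y <= E = y^2 + zeta, so D^2 y^2 <= (y^2 + zeta)^2 and, if zeta <= y^2,
D^2 <= y^2 + 2 zeta + zeta^2 / y^2 <= y^2 + 3 zeta <= |U| + 3 zeta.
(7) E < (D + 1) y and y <= D (y^2 <= E) give |U| <= E <= D^2 + D.
-/

namespace Pool.Agent.SC4.TN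

open Classical in
private lemma lines_disj {V : Type} [Fintype V] (G : SimpleGraph V) (hG : C4Free G) (x : V)
    (A : Finset V) (hA : ∀ v ∈ A, G.Adj x v) :
    Set.PairwiseDisjoint (A : Set V) (fun v => (G.neighborFinset v).erase x) := by
  intro v hv v' hv' hne
  rw [Function.onFun, Finset.disjoint_left]
  intro u hu hu'
  rw [Finset.mem_erase, SimpleGraph.mem_neighborFinset] at hu hu'
  exact hu.1 (hG v v' x u hne (hA v hv).symm (hA v' hv').symm hu.2 hu'.2).symm

open Classical in
private lemma lines_card {V : Type} [Fintype V] (G : SimpleGraph V) (hG : C4Free G) (y : ℕ)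
    (hdeg : ∀ v, y + 1 ≤ G.degree v) (x : V)
    (A : Finset V) (hA : ∀ v ∈ A, G.Adj x v) :
    A.card * y ≤ (A.biUnion (fun v => (G.neighborFinset v).erase x)).card := by
  rw [Finset.card_biUnion (lines_disj G hG x A hA), ← smul_eq_mul]
  apply Finset.card_nsmul_le_sum
  intro v hv
  rw [Finset.card_erase_of_mem (by rw [SimpleGraph.mem_neighborFinset]; exact (hA v hv).symm)]
  have := hdeg v
  rw [← SimpleGraph.card_neighborFinset_eq_degree] at this
  omega

open Classical in
theorem count {V : Type} [Fintype V] (G : SimpleGraph V) (hG : C4Free G) (y : ℕ) (hy : 1 ≤ y)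
    (hdeg : ∀ v, y + 1 ≤ G.degree v) (w : V) (I : Finset V) (hI : 1 ≤ I.card)
    (hT : Translational G w I) (E ζ : ℕ) (hE : Fintype.card V = E + (y + 1))
    (hζ : E = y ^ 2 + ζ) (hζy : ζ ≤ y ^ 2) :
    ∃ (M : Type) (_ : AddCommGroup M) (H : V → AddSubgroup M) (U : Finset M) (J : V → Finset M),
      (∀ x ∈ I, ∀ y ∈ I, x ≠ y → H x ⊓ H y = ⊥) ∧ (∀ x ∈ I, J x ⊆ U) ∧
      (∀ x ∈ I, ((J x).image (fun s => (s : M ⧸ H x))).card ≤ E / y) ∧
      (∀ x ∈ I, (U \ J x).card ≤ ζ) ∧
      (E / y) ^ 2 ≤ U.card + 3 * ζ ∧ U.card ≤ (E / y) ^ 2 + E / y ∧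
      y ^ 2 ≤ U.card ∧ U.card ≤ E := by
  obtain ⟨hwI, M, instM, H, p, hH, hinj, hcls⟩ := hT
  let Jv : V → Finset V := fun x => Finset.univ.filter (fun u => Joined G w x u)
  have memJ : ∀ x u, u ∈ Jv x ↔ Joined G w x u := by
    intro x u
    simp [Jv]
  let Ln : V → Finset V := fun x => (G.neighborFinset x).erase w
  have hLn : ∀ x, ∀ v ∈ Ln x, G.Adj x v := by
    intro x v hv
    have := (Finset.mem_erase.mp hv).2
    rwa [SimpleGraph.mem_neighborFinset] at this
  have hJv : ∀ x, Jv x = (Ln x).biUnion (fun v => (G.neighborFinset v).erase x) := by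
    intro x
    ext u
    rw [memJ, Finset.mem_biUnion]
    constructor
    · rintro ⟨v, h1, h2, h3, h4⟩
      refine ⟨v, ?_, ?_⟩
      · rw [Finset.mem_erase, SimpleGraph.mem_neighborFinset]; exact ⟨h2, h1⟩
      · rw [Finset.mem_erase, SimpleGraph.mem_neighborFinset]; exact ⟨h4, h3⟩
    · rintro ⟨v, h1, h2⟩
      rw [Finset.mem_erase, SimpleGraph.mem_neighborFinset] at h1 h2
      exact ⟨v, h1.2, h1.1, h2.2, h2.1⟩
  have cLn : ∀ x ∈ I, (Ln x).card + 1 = G.degree x := by
    intro x hx
    have h1 : w ∈ G.neighborFinset x := by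
      rw [SimpleGraph.mem_neighborFinset]; exact (hwI x hx).symm
    have h2 := Finset.card_erase_add_one h1
    rw [SimpleGraph.card_neighborFinset_eq_degree] at h2
    exact h2
  -- (0)
  have h0 : ∀ x ∈ I, (Ln x).card * y ≤ E := by
    intro x hx
    have h1 := lines_card G hG y hdeg x (G.neighborFinset x)
      (fun v hv => by rwa [SimpleGraph.mem_neighborFinset] at hv)
    have h2 : ((G.neighborFinset x).biUnion (fun v => (G.neighborFinset v).erase x)).card
        ≤ (Finset.univ.erase x : Finset V).card := by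
      apply Finset.card_le_card
      intro u hu
      rw [Finset.mem_biUnion] at hu
      obtain ⟨v, _, hv⟩ := hu
      rw [Finset.mem_erase] at hv ⊢
      exact ⟨hv.1, Finset.mem_univ _⟩
    rw [Finset.card_erase_of_mem (Finset.mem_univ x), Finset.card_univ, hE] at h2
    rw [SimpleGraph.card_neighborFinset_eq_degree, ← cLn x hx] at h1
    have h3 : ((Ln x).card + 1) * y = (Ln x).card * y + y := by ring
    omega
  -- (1)
  have h1 : ∀ x ∈ I, y ^ 2 ≤ (Jv x).card := by
    intro x hx
    have h2 := lines_card G hG y hdeg x (Ln x) (hLn x)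
    rw [← hJv] at h2
    have h3 : y ≤ (Ln x).card := by
      have := hdeg x
      rw [← cLn x hx] at this
      omega
    calc y ^ 2 = y * y := pow_two y
      _ ≤ (Ln x).card * y := Nat.mul_le_mul_right _ h3
      _ ≤ _ := h2
  set Uv : Finset V := I.biUnion Jv with hUv
  have h3 : Uv.card ≤ E := by
    have h4 : Uv ⊆ (Finset.univ \ G.neighborFinset w) := by
      intro u hu
      rw [hUv, Finset.mem_biUnion] at hu
      obtain ⟨x, hx, hux⟩ := hu
      rw [memJ] at hux
      obtain ⟨v, a1, a2, a3, a4⟩ := hux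
      rw [Finset.mem_sdiff, SimpleGraph.mem_neighborFinset]
      refine ⟨Finset.mem_univ _, fun hadj => ?_⟩
      exact a4 (hG w v x u (Ne.symm a2) (hwI x hx) a1.symm hadj a3).symm
    have h5 := Finset.card_le_card h4
    rw [Finset.card_sdiff_of_subset (Finset.subset_univ _), Finset.card_univ,
      SimpleGraph.card_neighborFinset_eq_degree, hE] at h5
    have := hdeg w
    omega
  have hpinj : Set.InjOn p (Uv : Set V) := by
    intro u hu u' hu' huu
    rw [Finset.mem_coe, hUv, Finset.mem_biUnion] at hu hu'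
    obtain ⟨x, hx, hux⟩ := hu
    obtain ⟨x', hx', hux'⟩ := hu'
    rw [memJ] at hux hux'
    exact hinj x hx x' hx' u u' hux hux' huu
  have hJU : ∀ x ∈ I, Jv x ⊆ Uv := fun x hx => Finset.subset_biUnion_of_mem Jv hx
  have cU : (Uv.image p).card = Uv.card := Finset.card_image_of_injOn hpinj
  obtain ⟨x0, hx0⟩ := Finset.card_pos.mp (by omega : 0 < I.card)
  have hUy : y ^ 2 ≤ Uv.card := (h1 x0 hx0).trans (Finset.card_le_card (hJU x0 hx0))
  have hDy : E / y * y ≤ E := Nat.div_mul_le_self E y
  have hyD : y ≤ E / y := by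
    rw [Nat.le_div_iff_mul_le (by omega)]
    rw [hζ]; nlinarith
  refine ⟨M, instM, H, Uv.image p, fun x => (Jv x).image p, hH, ?_, ?_, ?_, ?_, ?_, ?_, ?_⟩
  · intro x hx
    exact Finset.image_subset_image (hJU x hx)
  · intro x hx
    have hk : (((Jv x).image p).image (QuotientAddGroup.mk' (H x))).card ≤ (Ln x).card := by
      let c : V → M ⧸ H x := fun v => if hv : ∃ u, G.Adj v u ∧ u ≠ x then
        QuotientAddGroup.mk' (H x) (p hv.choose) else 0
      refine le_trans (Finset.card_le_card (t := (Ln x).image c) ?_) Finset.card_image_le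
      intro q hq
      rw [Finset.mem_image] at hq
      obtain ⟨s, hs, hsq⟩ := hq
      rw [Finset.mem_image] at hs
      obtain ⟨u, hu, hus⟩ := hs
      rw [memJ] at hu
      obtain ⟨v, a1, a2, a3, a4⟩ := hu
      rw [Finset.mem_image]
      refine ⟨v, ?_, ?_⟩
      · rw [Finset.mem_erase, SimpleGraph.mem_neighborFinset]; exact ⟨a2, a1⟩
      · have hv : ∃ u, G.Adj v u ∧ u ≠ x := ⟨u, a3, a4⟩
        have e1 : c v = QuotientAddGroup.mk' (H x) (p hv.choose) := dif_pos hv
        rw [e1, ← hsq, ← hus]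
        show ((p hv.choose : M) : M ⧸ H x) = ((p u : M) : M ⧸ H x)
        rw [QuotientAddGroup.eq]
        have := hcls x hx v u hv.choose a1 a2 a3 hv.choose_spec.1 a4 hv.choose_spec.2
        rwa [sub_eq_neg_add] at this
    have hk2 : (Ln x).card ≤ E / y := by
      rw [Nat.le_div_iff_mul_le (by omega)]
      exact h0 x hx
    refine le_trans (le_of_eq ?_) (hk.trans hk2)
    congr 1
    ext a
    simp [Finset.mem_image, eq_comm]
  · intro x hx
    have e1 : Uv.image p \ (Jv x).image p ⊆ (Uv \ Jv x).image p := by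
      intro a ha
      rw [Finset.mem_sdiff, Finset.mem_image] at ha
      obtain ⟨⟨u, hu, hua⟩, hnot⟩ := ha
      rw [Finset.mem_image]
      refine ⟨u, ?_, hua⟩
      rw [Finset.mem_sdiff]
      refine ⟨hu, fun hcon => hnot ?_⟩
      rw [← hua]
      exact Finset.mem_image_of_mem p hcon
    refine (Finset.card_le_card e1).trans (Finset.card_image_le.trans ?_)
    rw [Finset.card_sdiff_of_subset (hJU x hx)]
    have := h1 x hx
    omega
  · rw [cU]
    have h5 : (E / y) ^ 2 * y ^ 2 ≤ (y ^ 2 + ζ) ^ 2 := by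
      calc (E / y) ^ 2 * y ^ 2 = (E / y * y) ^ 2 := by ring
        _ ≤ E ^ 2 := Nat.pow_le_pow_left hDy 2
        _ = _ := by rw [← hζ]
    have h6 : (E / y) ^ 2 ≤ y ^ 2 + 3 * ζ := by
      by_contra hcon
      push Not at hcon
      have hy2 : 0 < y ^ 2 := by positivity
      have h7 : (y ^ 2 + 3 * ζ + 1) * y ^ 2 ≤ (E / y) ^ 2 * y ^ 2 :=
        Nat.mul_le_mul_right _ hcon
      nlinarith
    omega
  · rw [cU]
    have h5 : E < (E / y + 1) * y := by
      have h6 := Nat.div_add_mod E y
      have h7 := Nat.mod_lt E (by omega : 0 < y)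
      nlinarith
    have h6 : (E / y + 1) * y ≤ (E / y + 1) * (E / y) := Nat.mul_le_mul_left _ hyD
    have h7 : (E / y + 1) * (E / y) = (E / y) ^ 2 + E / y := by ring
    omega
  · rw [cU]; exact hUy
  · rw [cU]; exact h3

end Pool.Agent.SC4.TN
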