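import Mathlib
import Pool.Agent.Work.MP_2d1b31_co.TN.Defs
import Pool.Agent.Work.MP_2d1b31_co.TN.Assembly
import Pool.Agent.Work.MP_2d1b31_co.TN.MacNeish
import Pool.Agent.Work.MP_2d1b31_co.TN.Count
import Pool.Agent.Work.MP_2d1b31_co.TN.Degree

set_option autoImplicit false

/-
MODULE Core (size M). Cites count, assembly, macneish, degree_bound.
Given c >= 0. G on N vertices, C4-free, deg v >= d for all v, where d is a natural number with
d >= sqrt N - c, N >= N0(c). Put y = d - 1 (d >= 2 for N large), E = N - d, zeta = E - y^2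
(y^2 <= E by degree_bound). zeta = N - d - (d-1)^2 = N - d^2 + d - 1. From sqrt N <= d + c:
N <= d^2 + 2 c d + c^2, so zeta <= 2 c d + c^2 + d <= (2c + 2) d for d >= c^2 ( N large). In particular
zeta <= y^2 for N large. D = E / y >= y (y^2 <= E). k := 6 zeta / D + 1 satisfies 6 zeta <= k D and
k D <= 6 zeta + D; D >= y, so k <= 6 (2c+2) d / y + 1 <= 24 c + 26 (d <= 2 y), so 4000 k <= D for N large.
assembly gives W, h with h^2 <= |U| + 492 k D <= E + 492 k D and y^2 <= |U| <= h^2 + 656 k D. Here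
D <= E / y <= y + zeta / y <= y + 4c + 4 <= 2y + ..., so k D <= C1 (c+1) sqrt N; also |E - N| = d and
|y^2 - N| <= C (c + 1) sqrt N  (d <= sqrt N + 1 since (d-1)^2 <= E <= N). Hence |h^2 - N| <= C2 sqrt N with
C2 = C2(c), and |h - sqrt N| = |h^2 - N| / (h + sqrt N) <= C2 =: R.
macneish (with the subgroups H x, x in I) gives the last clause.
R and N0 may be chosen as large as you like; no effort for good constants.
-/

namespace Pool.Agent.SC4.TN

open Classical in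
theorem core (c : ℝ) (hc : 0 ≤ c) : ∃ (R : ℝ) (N0 : ℕ), 0 < R ∧ ∀ N : ℕ, N0 ≤ N →
    ∀ G : SimpleGraph (Fin N), C4Free G → (∀ v, Real.sqrt N - c ≤ (G.degree v : ℝ)) →
    ∀ (w : Fin N) (I : Finset (Fin N)), 3 ≤ I.card → Translational G w I →
    ∃ h : ℕ, |(h : ℝ) - Real.sqrt N| ≤ R ∧
      ∀ p : ℕ, p.Prime → p ∣ h → I.card ≤ p ^ (h.factorization p) + 1 := by
  set S0 : ℝ := 200000 * (c + 2) ^ 2 with hS0
  refine ⟨656 * (24 * c + 28) + 4 * c + 6 + 1, ⌈S0 ^ 2⌉₊, by positivity, ?_⟩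
  intro N hN G hG hdeg w I hI hT
  set s : ℝ := Real.sqrt N with hs
  have hs2 : s ^ 2 = N := Real.sq_sqrt (Nat.cast_nonneg N)
  have hsS : S0 ≤ s := by
    have h1 : S0 ^ 2 ≤ (N : ℝ) := (Nat.le_ceil _).trans (by exact_mod_cast hN)
    exact Real.le_sqrt_of_sq_le h1
  have hc2 : 0 ≤ c ^ 2 := sq_nonneg c
  have hsbig : 200000 * c ^ 2 + 800000 * c + 800000 ≤ s := by
    have : S0 = 200000 * c ^ 2 + 800000 * c + 800000 := by rw [hS0]; ring
    rw [← this]; exact hsS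
  have hs0 : 0 < s := by nlinarith
  set d : ℕ := ⌈s - c⌉₊ with hd
  have hd1 : s - c ≤ d := Nat.le_ceil _
  have hd2 : (d : ℝ) < s - c + 1 := Nat.ceil_lt_add_one (by nlinarith)
  have hdeg' : ∀ v, d ≤ G.degree v := fun v => Nat.ceil_le.2 (hdeg v)
  have hdR2 : (2 : ℝ) ≤ d := by nlinarith
  have hd2' : 2 ≤ d := by exact_mod_cast hdR2
  obtain ⟨y, hy⟩ : ∃ y, d = y + 1 := ⟨d - 1, by omega⟩
  have hyR : (d : ℝ) = y + 1 := by rw [hy]; push_cast; ring
  have hy1 : 1 ≤ y := by omega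
  have hdeg2 : ∀ v, y + 1 ≤ G.degree v := fun v => by rw [← hy]; exact hdeg' v
  have hNd : d ≤ N := by
    have : (d : ℝ) ≤ N := by rw [← hs2]; nlinarith
    exact_mod_cast this
  obtain ⟨E, hE⟩ : ∃ E, N = E + (y + 1) := ⟨N - d, by omega⟩
  have hER : (N : ℝ) = E + (y + 1) := by rw [hE]; push_cast; ring
  have hcard : Fintype.card (Fin N) = E + (y + 1) := by rw [Fintype.card_fin]; exact hE
  have : Nonempty (Fin N) := ⟨w⟩
  have hyE : y ^ 2 ≤ E := (degree_bound G hG y hdeg2 E hcard).1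
  obtain ⟨ζ, hζ⟩ : ∃ ζ, E = y ^ 2 + ζ := ⟨E - y ^ 2, by omega⟩
  have hζR : (E : ℝ) = (y : ℝ) ^ 2 + ζ := by rw [hζ]; push_cast; ring
  have hyR0 : (0 : ℝ) < y := by exact_mod_cast hy1
  have hζ0 : (0 : ℝ) ≤ ζ := Nat.cast_nonneg _
  -- `ζ ≤ (2 c + 2) d`
  have hdpos : (0 : ℝ) < d := by linarith
  have hsd : s ^ 2 ≤ (d + c) ^ 2 := pow_le_pow_left₀ hs0.le (by linarith) 2
  have hcd : c ^ 2 ≤ d := by nlinarith
  have hζle : (ζ : ℝ) ≤ (2 * c + 2) * d := by nlinarith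
  have hd2y : (d : ℝ) ≤ 2 * y := by
    have : (1 : ℝ) ≤ y := by exact_mod_cast hy1
    linarith
  have hζy' : (ζ : ℝ) ≤ (4 * c + 4) * y := by nlinarith
  have hybig : 4000 * (24 * c + 25) ≤ (y : ℝ) := by nlinarith
  have hζy : ζ ≤ y ^ 2 := by
    have : (ζ : ℝ) ≤ (y : ℝ) ^ 2 := by nlinarith
    exact_mod_cast this
  obtain ⟨M, instM, H, U, J, hdis, hJ, hcos, hUJ, hlo, hhi, hyU, hUE⟩ :=
    count G hG y hy1 hdeg2 w I (by omega) hT E ζ hcard hζ hζy
  set D : ℕ := E / y with hD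
  have hDy : y ≤ D := by
    rw [hD, Nat.le_div_iff_mul_le (by omega)]
    nlinarith
  have hDpos : 0 < D := by omega
  have hDE : D * y ≤ E := Nat.div_mul_le_self E y
  have hDR : (D : ℝ) ≤ y + (4 * c + 4) := by
    have h1 : (D : ℝ) * y ≤ E := by exact_mod_cast hDE
    have h2 : (D : ℝ) * y ≤ (y + (4 * c + 4)) * y := by
      rw [hζR] at h1; nlinarith
    exact le_of_mul_le_mul_right h2 hyR0
  have hDyR : (y : ℝ) ≤ D := by exact_mod_cast hDy
  set k : ℕ := 6 * ζ / D + 1 with hk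
  have hk1 : 1 ≤ k := by rw [hk]; exact Nat.le_add_left 1 _
  have hkD1 : 6 * ζ ≤ k * D := by
    have := Nat.lt_div_mul_add (a := 6 * ζ) hDpos
    rw [hk, add_mul, one_mul]
    exact this.le
  have hkD2 : k * D ≤ 6 * ζ + D := by
    rw [hk, add_mul, one_mul]
    exact Nat.add_le_add_right (Nat.div_mul_le_self _ _) D
  have hkD2R : (k : ℝ) * D ≤ 6 * ζ + D := by exact_mod_cast hkD2
  have hDR0 : (0 : ℝ) < D := by exact_mod_cast hDpos
  have hkR : (k : ℝ) ≤ 24 * c + 25 := by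
    have h1 : (k : ℝ) * D ≤ (24 * c + 25) * D := by nlinarith
    exact le_of_mul_le_mul_right h1 hDR0
  have hDk : 4000 * k ≤ D := by
    have : (4000 : ℝ) * k ≤ D := by linarith
    exact_mod_cast this
  obtain ⟨W, h, hfin, hW, hWH, hle1, hle2'⟩ := assembly I hI H hdis U J hJ D k ζ hk1 hDk hcos hUJ
    hkD1 hlo hhi
  have hle2 : U.card ≤ h ^ 2 + 656 * k * D := by
    first
    | exact hle2'
    | exact hle2'.1
  refine ⟨h, ?_, fun p hp hph => macneish I W H h hW hWH hdis p hp hph⟩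
  have hd2s : (d : ℝ) ≤ 2 * s := by linarith
  have hkDs : (k : ℝ) * D ≤ (24 * c + 28) * s := by
    have h1 : (k : ℝ) * D ≤ (12 * c + 14) * d := by nlinarith
    nlinarith
  have hle1R : (h : ℝ) ^ 2 ≤ U.card + 492 * (k * D) := by
    have : ((h ^ 2 : ℕ) : ℝ) ≤ ((U.card + 492 * k * D : ℕ) : ℝ) := by exact_mod_cast hle1
    push_cast at this
    linarith
  have hle2R : (U.card : ℝ) ≤ (h : ℝ) ^ 2 + 656 * (k * D) := by
    have : ((U.card : ℕ) : ℝ) ≤ ((h ^ 2 + 656 * k * D : ℕ) : ℝ) := by exact_mod_cast hle2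
    push_cast at this
    linarith
  have hyUR : (y : ℝ) ^ 2 ≤ U.card := by exact_mod_cast hyU
  have hUER : (U.card : ℝ) ≤ E := by exact_mod_cast hUE
  have hkD0 : (0 : ℝ) ≤ k * D := by positivity
  have hup : (h : ℝ) ^ 2 - s ^ 2 ≤ (656 * (24 * c + 28) + 4 * c + 6) * s := by
    rw [hs2, hER]
    nlinarith
  have hlow : s ^ 2 - (h : ℝ) ^ 2 ≤ (656 * (24 * c + 28) + 4 * c + 6) * s := by
    have h1 : s ^ 2 - (y : ℝ) ^ 2 ≤ (4 * c + 6) * s := by
      rw [hs2, hER, hζR]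
      nlinarith
    nlinarith
  have hh0 : (0 : ℝ) ≤ h := Nat.cast_nonneg _
  rw [abs_le]
  constructor
  · have h1 : (s - h) * s ≤ (656 * (24 * c + 28) + 4 * c + 6 + 1) * s := by
      rcases le_total s (h : ℝ) with h2 | h2
      · have h3 : (s - h) * s ≤ 0 := mul_nonpos_of_nonpos_of_nonneg (by linarith) hs0.le
        have h4 : 0 ≤ (656 * (24 * c + 28) + 4 * c + 6 + 1) * s := by positivity
        linarith
      · have h3 : 0 ≤ (s - h) * h := mul_nonneg (by linarith) hh0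
        nlinarith
    have h2 := le_of_mul_le_mul_right h1 hs0
    linarith
  · have h1 : ((h : ℝ) - s) * s ≤ (656 * (24 * c + 28) + 4 * c + 6 + 1) * s := by
      rcases le_total (h : ℝ) s with h2 | h2
      · have h3 : ((h : ℝ) - s) * s ≤ 0 := mul_nonpos_of_nonpos_of_nonneg (by linarith) hs0.le
        have h4 : 0 ≤ (656 * (24 * c + 28) + 4 * c + 6 + 1) * s := by positivity
        linarith
      · have h3 : 0 ≤ ((h : ℝ) - s) * h := mul_nonneg (by linarith) hh0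
        nlinarith
    exact le_of_mul_le_mul_right h1 hs0

end Pool.Agent.SC4.TN
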