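import Mathlib
import Pool.Agent.Work.MP_2d1b31_co.Base
import Pool.Agent.Work.MP_2d1b31_co.TN.Defs
import Pool.Agent.Work.MP_2d1b31_co.TN.Core
import Pool.Agent.Work.MP_2d1b31_co.TN.Density
import Pool.Agent.Work.MP_2d1b31_co.TN.Degree

set_option autoImplicit false

/-! Main theorem on translational classes, for all `N ≥ N0` with `N0 ≤ n + √n - c`. (The form with a
single `N` in `TN/Main.lean` is void: the property holds trivially for small `N`.) -/

namespace Pool.Agent.SC4.TN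

open Classical in
/-- For every `c` and `ε > 0` there is `r` such that all `n` outside a set of upper density at most `ε`
have the following property: for some `N₀ ≤ n + √n - c` every graph on `N ≥ N₀` vertices contains a
4-cycle, or its complement contains `K_{1,n}`, or it has no vertex with `r` translational classes. -/
theorem main' (c ε : ℝ) (hε : 0 < ε) : ∃ (r X0 : ℕ), ∀ X : ℕ, X0 ≤ X →
    (((Finset.range (X + 1)).filter (fun n : ℕ => ¬ ∃ N0 : ℕ,
      (N0 : ℝ) ≤ (n : ℝ) + Real.sqrt (n : ℝ) - c ∧ ∀ N : ℕ, N0 ≤ N →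
      ∀ G : SimpleGraph (Fin N), (SimpleGraph.cycleGraph 4).IsContained G ∨
        (completeBipartiteGraph (Fin 1) (Fin n)).IsContained Gᶜ ∨
        ∀ (w : Fin N) (I : Finset (Fin N)), r ≤ I.card → ¬ Translational G w I)).card : ℝ)
      ≤ ε * X := by
  set c0 : ℝ := max c 0 with hc0
  have hc00 : 0 ≤ c0 := le_max_right _ _
  have hcc : c ≤ c0 := le_max_left _ _
  obtain ⟨R, N0, hR, hcore⟩ := core (c0 + 3) (by positivity)
  obtain ⟨r, X0, hd⟩ := density (R + 1) (ε / 2) (half_pos hε)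
  set n0 : ℕ := max N0 (⌈(c0 + 4) ^ 2⌉₊) with hn0
  refine ⟨max r 3, max X0 (⌈2 * n0 / ε⌉₊), fun X hX => ?_⟩
  -- the property holds outside the exceptional set
  have key : ∀ n : ℕ, n0 ≤ n → (¬ ∃ h : ℕ, |(h : ℝ) - Real.sqrt n| ≤ R + 1 ∧
      ∀ p : ℕ, p.Prime → p ∣ h → r ≤ p ^ (h.factorization p) + 1) →
      ∃ N1 : ℕ, (N1 : ℝ) ≤ (n : ℝ) + Real.sqrt (n : ℝ) - c ∧ ∀ N : ℕ, N1 ≤ N →
      ∀ G : SimpleGraph (Fin N), (SimpleGraph.cycleGraph 4).IsContained G ∨
        (completeBipartiteGraph (Fin 1) (Fin n)).IsContained Gᶜ ∨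
        ∀ (w : Fin N) (I : Finset (Fin N)), max r 3 ≤ I.card → ¬ Translational G w I := by
    intro n hn hex
    have hsq : c0 + 4 ≤ Real.sqrt n := by
      refine Real.le_sqrt_of_sq_le ?_
      have h1 : (c0 + 4) ^ 2 ≤ (⌈(c0 + 4) ^ 2⌉₊ : ℝ) := Nat.le_ceil _
      have h2 : ((⌈(c0 + 4) ^ 2⌉₊ : ℕ) : ℝ) ≤ n := by
        exact_mod_cast (le_max_right _ _).trans hn
      linarith
    have hs0 : 0 ≤ Real.sqrt n := Real.sqrt_nonneg _
    have hss : Real.sqrt n ^ 2 = n := Real.sq_sqrt (Nat.cast_nonneg n)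
    have hn00 : (0 : ℝ) ≤ n := Nat.cast_nonneg n
    set N1 : ℕ := ⌊(n : ℝ) + Real.sqrt n - c0⌋₊ with hN
    have hN1 : (N1 : ℝ) ≤ (n : ℝ) + Real.sqrt n - c0 := Nat.floor_le (by linarith)
    have hN2' : (n : ℝ) + Real.sqrt n - c0 < N1 + 1 := Nat.lt_floor_add_one _
    refine ⟨N1, by linarith, fun N hNN G => ?_⟩
    have hNNr : (N1 : ℝ) ≤ N := by exact_mod_cast hNN
    have hN2 : (n : ℝ) + Real.sqrt n - c0 < N + 1 := by linarith
    have hnN : n + 2 ≤ N := by
      have : ((n + 2 : ℕ) : ℝ) < (N : ℝ) + 1 := by push_cast; linarith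
      have h3 : n + 2 < N + 1 := by exact_mod_cast this
      omega
    by_cases h4 : (SimpleGraph.cycleGraph 4).IsContained G
    · exact Or.inl h4
    by_cases h5 : (completeBipartiteGraph (Fin 1) (Fin n)).IsContained Gᶜ
    · exact Or.inr (Or.inl h5)
    refine Or.inr (Or.inr fun w I hI hT => ?_)
    have hC4 : C4Free G := by
      by_contra hc
      exact h4 ((c4_iff G).2 hc)
    rw [star_iff] at h5
    push Not at h5
    -- the degree bound
    obtain ⟨y, hy⟩ : ∃ y, N = n + (y + 1) := ⟨N - n - 1, by omega⟩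
    have hyd : ∀ v, y + 1 ≤ G.degree v := by
      intro v
      have h6 := h5 v
      rw [Fintype.card_fin] at h6
      omega
    haveI : Nonempty (Fin N) := ⟨w⟩
    obtain ⟨hyn, -⟩ := degree_bound G hC4 y hyd n (by rw [Fintype.card_fin]; exact hy)
    have hys : (y : ℝ) ≤ Real.sqrt n := by
      refine Real.le_sqrt_of_sq_le ?_
      exact_mod_cast hyn
    have hNy : (N : ℝ) = n + (y + 1) := by exact_mod_cast hy
    have hsN1 : Real.sqrt N ≤ Real.sqrt n + 1 := by
      refine Real.sqrt_le_iff.2 ⟨by linarith, ?_⟩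
      nlinarith
    have hsN2 : Real.sqrt n ≤ Real.sqrt N := Real.sqrt_le_sqrt (by exact_mod_cast (by omega))
    have hdeg : ∀ v, Real.sqrt N - (c0 + 3) ≤ (G.degree v : ℝ) := by
      intro v
      have h7 : ((y + 1 : ℕ) : ℝ) ≤ (G.degree v : ℝ) := by exact_mod_cast hyd v
      push_cast at h7
      linarith
    obtain ⟨h, hh1, hh2⟩ := hcore N ((le_max_left _ _).trans (hn.trans (by omega))) G hC4 hdeg w I
      ((le_max_right _ _).trans hI) hT
    refine hex ⟨h, ?_, fun p hp hph => ((le_max_left _ _).trans hI).trans (hh2 p hp hph)⟩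
    rw [abs_le] at hh1 ⊢
    constructor <;> linarith [hh1.1, hh1.2]
  -- the count
  have hsub : (Finset.range (X + 1)).filter (fun n : ℕ => ¬ ∃ N0 : ℕ,
      (N0 : ℝ) ≤ (n : ℝ) + Real.sqrt (n : ℝ) - c ∧ ∀ N : ℕ, N0 ≤ N →
      ∀ G : SimpleGraph (Fin N), (SimpleGraph.cycleGraph 4).IsContained G ∨
        (completeBipartiteGraph (Fin 1) (Fin n)).IsContained Gᶜ ∨
        ∀ (w : Fin N) (I : Finset (Fin N)), max r 3 ≤ I.card → ¬ Translational G w I) ⊆
      Finset.range n0 ∪ (Finset.range (X + 1)).filter (fun n : ℕ => ∃ h : ℕ,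
        |(h : ℝ) - Real.sqrt n| ≤ R + 1 ∧
        ∀ p : ℕ, p.Prime → p ∣ h → r ≤ p ^ (h.factorization p) + 1) := by
    intro n hn
    rw [Finset.mem_filter] at hn
    rw [Finset.mem_union]
    by_cases h1 : n < n0
    · exact Or.inl (Finset.mem_range.2 h1)
    · refine Or.inr (Finset.mem_filter.2 ⟨hn.1, ?_⟩)
      by_contra hc
      exact hn.2 (key n (not_lt.1 h1) hc)
  have hcard := (Finset.card_le_card hsub).trans (Finset.card_union_le _ _)
  rw [Finset.card_range] at hcard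
  have hd' := hd X ((le_max_left _ _).trans hX)
  have hX2 : (n0 : ℝ) ≤ ε / 2 * X := by
    have h1 : 2 * n0 / ε ≤ (⌈2 * n0 / ε⌉₊ : ℝ) := Nat.le_ceil _
    have h2 : ((⌈2 * n0 / ε⌉₊ : ℕ) : ℝ) ≤ X := by
      exact_mod_cast (le_max_right _ _).trans hX
    have h3 : 2 * n0 / ε ≤ (X : ℝ) := h1.trans h2
    rw [div_le_iff₀ hε] at h3
    linarith
  refine (Nat.cast_le.2 hcard).trans ?_
  push_cast
  linarith

end Pool.Agent.SC4.TN
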