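import Mathlib
import Pool.Agent.Work.MP_2d1b31_co.Base
import Pool.Agent.Work.MP_2d1b31_co.TN.Defs
import Pool.Agent.Work.MP_2d1b31_co.TN.Core
import Pool.Agent.Work.MP_2d1b31_co.TN.Density

set_option autoImplicit false

/-
MODULE Main (size M). Cites core, density, c4_iff, star_iff.
Given c and eps > 0; replacing c by max c 1 only strengthens the claim, so c > 0. Let c' = c + 3, (R, N0) = core c', (r, X0) = density (R + 1) eps, r' = max r 3.
(density for r gives it for r' >= r: the set gets smaller.) For n large (n > n0(c)) put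
N = floor(n + sqrt n - c) (a natural number, N >= n if sqrt n >= c + 1), so N <= n + sqrt n - c and
N - n > sqrt n - c - 1. sqrt N <= sqrt (n + sqrt n) <= sqrt n + 1/2, |sqrt N - sqrt n| <= 1. Suppose n is
not in the exceptional set {n : exists h, |h - sqrt n| <= R+1, all p | h: r' <= p^v + 1}. Let G be a
graph on Fin N, no 4-cycle (so C4Free by c4_iff), no star K_{1,n} in the complement: by star_iff every
degree satisfies N < deg v + n + 1, deg v >= N - n > sqrt n - c - 1 >= sqrt N - c' . If I is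
translational at w with r' <= |I| then core gives h with |h - sqrt N| <= R, hence
|h - sqrt n| <= R + 1, and r' <= |I| <= p^v + 1 for all p | h: n is exceptional, contradiction.
The finitely many n <= n0 are absorbed: number of exceptional n <= X is at most eps/2 X + n0 + 1.
-/

namespace Pool.Agent.SC4.TN

open Classical in
/-- For every `c` and `ε > 0` there is `r` such that all `n` outside a set of upper density at most `ε`
have the following property: for some `N ≤ n + √n - c` every graph on `N` vertices contains a 4-cycle,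
or its complement contains `K_{1,n}`, or it has no vertex with `r` translational classes. -/
theorem main (c ε : ℝ) (hε : 0 < ε) : ∃ (r X0 : ℕ), ∀ X : ℕ, X0 ≤ X →
    (((Finset.range (X + 1)).filter (fun n : ℕ => ¬ ∃ N : ℕ,
      (N : ℝ) ≤ (n : ℝ) + Real.sqrt (n : ℝ) - c ∧
      ∀ G : SimpleGraph (Fin N), (SimpleGraph.cycleGraph 4).IsContained G ∨
        (completeBipartiteGraph (Fin 1) (Fin n)).IsContained Gᶜ ∨
        ∀ (w : Fin N) (I : Finset (Fin N)), r ≤ I.card → ¬ Translational G w I)).card : ℝ)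
      ≤ ε * X := by
  set c0 : ℝ := max c 0 with hc0
  have hc00 : 0 ≤ c0 := le_max_right _ _
  have hcc : c ≤ c0 := le_max_left _ _
  obtain ⟨R, N0, hR, hcore⟩ := core (c0 + 3) (by positivity)
  obtain ⟨r, X0, hd⟩ := density (R + 1) (ε / 2) (half_pos hε)
  set n0 : ℕ := max N0 (⌈(c0 + 1) ^ 2⌉₊) with hn0
  refine ⟨max r 3, max X0 (⌈2 * n0 / ε⌉₊), fun X hX => ?_⟩
  -- the property holds outside the exceptional set
  have key : ∀ n : ℕ, n0 ≤ n → (¬ ∃ h : ℕ, |(h : ℝ) - Real.sqrt n| ≤ R + 1 ∧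
      ∀ p : ℕ, p.Prime → p ∣ h → r ≤ p ^ (h.factorization p) + 1) →
      ∃ N : ℕ, (N : ℝ) ≤ (n : ℝ) + Real.sqrt (n : ℝ) - c ∧
      ∀ G : SimpleGraph (Fin N), (SimpleGraph.cycleGraph 4).IsContained G ∨
        (completeBipartiteGraph (Fin 1) (Fin n)).IsContained Gᶜ ∨
        ∀ (w : Fin N) (I : Finset (Fin N)), max r 3 ≤ I.card → ¬ Translational G w I := by
    intro n hn hex
    have hsq : c0 + 1 ≤ Real.sqrt n := by
      refine Real.le_sqrt_of_sq_le ?_
      have h1 : (c0 + 1) ^ 2 ≤ (⌈(c0 + 1) ^ 2⌉₊ : ℝ) := Nat.le_ceil _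
      have h2 : ((⌈(c0 + 1) ^ 2⌉₊ : ℕ) : ℝ) ≤ n := by
        exact_mod_cast (le_max_right _ _).trans hn
      linarith
    have hs0 : 0 ≤ Real.sqrt n := Real.sqrt_nonneg _
    have hss : Real.sqrt n ^ 2 = n := Real.sq_sqrt (Nat.cast_nonneg n)
    have hn00 : (0 : ℝ) ≤ n := Nat.cast_nonneg n
    set N : ℕ := ⌊(n : ℝ) + Real.sqrt n - c0⌋₊ with hN
    have hN1 : (N : ℝ) ≤ (n : ℝ) + Real.sqrt n - c0 := Nat.floor_le (by linarith)
    have hN2 : (n : ℝ) + Real.sqrt n - c0 < N + 1 := Nat.lt_floor_add_one _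
    have hnN : n ≤ N := by
      have : (n : ℝ) < (N : ℝ) + 1 := by linarith
      have h3 : n < N + 1 := by exact_mod_cast this
      omega
    have hsN1 : Real.sqrt N ≤ Real.sqrt n + 1 := by
      refine Real.sqrt_le_iff.2 ⟨by linarith, ?_⟩
      nlinarith
    have hsN2 : Real.sqrt n ≤ Real.sqrt N := Real.sqrt_le_sqrt (by exact_mod_cast hnN)
    refine ⟨N, by linarith, fun G => ?_⟩
    by_cases h4 : (SimpleGraph.cycleGraph 4).IsContained G
    · exact Or.inl h4
    by_cases h5 : (completeBipartiteGraph (Fin 1) (Fin n)).IsContained Gᶜ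
    · exact Or.inr (Or.inl h5)
    refine Or.inr (Or.inr fun w I hI hT => ?_)
    have hC4 : C4Free G := by
      by_contra hc
      exact h4 ((c4_iff G).2 hc)
    rw [star_iff] at h5
    push Not at h5
    have hdeg : ∀ v, Real.sqrt N - (c0 + 3) ≤ (G.degree v : ℝ) := by
      intro v
      have h6 := h5 v
      rw [Fintype.card_fin] at h6
      have h7 : (N : ℝ) < (G.degree v : ℝ) + n + 1 := by exact_mod_cast h6
      linarith
    obtain ⟨h, hh1, hh2⟩ := hcore N ((le_max_left _ _).trans (hn.trans hnN)) G hC4 hdeg w I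
      ((le_max_right _ _).trans hI) hT
    refine hex ⟨h, ?_, fun p hp hph => ((le_max_left _ _).trans hI).trans (hh2 p hp hph)⟩
    rw [abs_le] at hh1 ⊢
    constructor <;> linarith [hh1.1, hh1.2]
  -- the count
  have hsub : (Finset.range (X + 1)).filter (fun n : ℕ => ¬ ∃ N : ℕ,
      (N : ℝ) ≤ (n : ℝ) + Real.sqrt (n : ℝ) - c ∧
      ∀ G : SimpleGraph (Fin N), (SimpleGraph.cycleGraph 4).IsContained G ∨
        (completeBipartiteGraph (Fin 1) (Fin n)).IsContained Gᶜ ∨
        ∀ (w : Fin N) (I : Finset (Fin N)), max r 3 ≤ I.card → ¬ Translational G w I) ⊆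
      Finset.range n0 ∪ (Finset.range (X + 1)).filter (fun n : ℕ => ∃ h : ℕ,
        |(h : ℝ) - Real.sqrt n| ≤ R + 1 ∧
        ∀ p : ℕ, p.Prime → p ∣ h → r ≤ p ^ (h.factorization p) + 1) := by
    intro n hn
    rw [Finset.mem_filter] at hn
    rw [Finset.mem_union]
    by_cases h1 : n < n0
    · exact Or.inl (Finset.mem_range.2 h1)
    · refine Or.inr (Finset.mem_filter.2 ⟨hn.1, ?_⟩)
      by_contra hc
      exact hn.2 (key n (not_lt.1 h1) hc)
  have hcard := (Finset.card_le_card hsub).trans (Finset.card_union_le _ _)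
  rw [Finset.card_range] at hcard
  have hd' := hd X ((le_max_left _ _).trans hX)
  have hX2 : (n0 : ℝ) ≤ ε / 2 * X := by
    have h1 : 2 * n0 / ε ≤ (⌈2 * n0 / ε⌉₊ : ℝ) := Nat.le_ceil _
    have h2 : ((⌈2 * n0 / ε⌉₊ : ℕ) : ℝ) ≤ X := by
      exact_mod_cast (le_max_right _ _).trans hX
    have h3 : 2 * n0 / ε ≤ (X : ℝ) := h1.trans h2
    rw [div_le_iff₀ hε] at h3
    linarith
  refine (Nat.cast_le.2 hcard).trans ?_
  push_cast
  linarith

end Pool.Agent.SC4.TN
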